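import Pool.Agent.Helper47.CT.Step

/-! # Norms of twisted matrices and annihilating polynomials -/

open Matrix Module Polynomial

namespace CosetThompson

variable {F : Type*} [Field F]

/-- the twisted power `a σ(a) ⋯ σ^(k-1)(a)` -/
def nm {ι : Type*} [Fintype ι] [DecidableEq ι] (σ : F ≃+* F) (a : Matrix ι ι F) :
    ℕ → Matrix ι ι F
  | 0 => 1
  | (k + 1) => a * (nm σ a k).map σ

section basic

variable {κ ι : Type*} [Fintype κ] [DecidableEq κ] [Fintype ι] [DecidableEq ι]

theorem nm_intertwine (σ : F ≃+* F) (b : Matrix ι ι F) (a : Matrix κ κ F) (w : Matrix ι κ F)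
    (h : b * w.map σ = w * a) (k : ℕ) : nm σ b k * w.map (σ^[k]) = w * nm σ a k := by
  induction k with
  | zero =>
    simp only [nm, Matrix.one_mul, Matrix.mul_one, Function.iterate_zero]
    ext i j
    simp
  | succ k ih =>
    have e : w.map (σ^[k+1]) = (w.map (σ^[k])).map σ := by
      ext i j
      simp only [Matrix.map_apply, Function.iterate_succ_apply']
    simp only [nm]
    rw [e, Matrix.mul_assoc, ← map_mul', ih, map_mul', ← Matrix.mul_assoc, h, Matrix.mul_assoc]

theorem nm_fromBlocks (σ : F ≃+* F) (a : Matrix κ κ F) (d : Matrix ι ι F) (k : ℕ) :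
    nm σ (fromBlocks a 0 0 d) k = fromBlocks (nm σ a k) 0 0 (nm σ d k) := by
  induction k with
  | zero => simp only [nm, fromBlocks_one]
  | succ k ih =>
    simp only [nm]
    rw [ih, fromBlocks_map, fromBlocks_multiply]
    simp

theorem nm_submatrix (σ : F ≃+* F) (a : Matrix ι ι F) (e : κ ≃ ι) (k : ℕ) :
    nm σ (a.submatrix e e) k = (nm σ a k).submatrix e e := by
  induction k with
  | zero =>
    simp only [nm]
    exact (Matrix.submatrix_one_equiv e).symm
  | succ k ih =>
    simp only [nm]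
    rw [ih, ← Matrix.submatrix_map, Matrix.submatrix_mul_equiv]

end basic

section ann

variable {K : Type*} [Field K] [Algebra K F]
variable {κ ι : Type*} [Fintype κ] [DecidableEq κ] [Fintype ι] [DecidableEq ι]

theorem aeval_intertwine (X : Matrix ι ι F) (Y : Matrix κ κ F) (w : Matrix ι κ F)
    (h : X * w = w * Y) (p : K[X]) : aeval X p * w = w * aeval Y p := by
  induction p using Polynomial.induction_on' with
  | add p q hp hq => rw [map_add, map_add, Matrix.add_mul, Matrix.mul_add, hp, hq]
  | monomial n c =>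
    rw [aeval_monomial, aeval_monomial]
    have hn : X ^ n * w = w * Y ^ n := by
      induction n with
      | zero => simp
      | succ n ih => rw [pow_succ, pow_succ, Matrix.mul_assoc, h, ← Matrix.mul_assoc, ih,
          Matrix.mul_assoc]
    rw [Algebra.algebraMap_eq_smul_one, Algebra.algebraMap_eq_smul_one, smul_mul_assoc,
      smul_mul_assoc, one_mul, one_mul, Matrix.smul_mul, Matrix.mul_smul, hn]

theorem eq_zero_of_coprime (X : Matrix ι ι F) (Y : Matrix κ κ F) (w : Matrix ι κ F)
    (h : X * w = w * Y) (p q : K[X]) (hpq : IsCoprime p q) (hp : aeval X p = 0)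
    (hq : aeval Y q = 0) : w = 0 := by
  obtain ⟨u, v, huv⟩ := hpq
  have h1 : aeval X (u * p + v * q) * w = w := by
    rw [huv, map_one, Matrix.one_mul]
  rw [← h1, map_add, Matrix.add_mul, map_mul, hp, mul_zero, Matrix.zero_mul, zero_add,
    aeval_intertwine X Y w h, map_mul, hq, mul_zero, Matrix.mul_zero]

theorem aeval_fromBlocks (X : Matrix κ κ F) (Y : Matrix ι ι F) (p : K[X]) :
    aeval (fromBlocks X 0 0 Y) p = fromBlocks (aeval X p) 0 0 (aeval Y p) := by
  induction p using Polynomial.induction_on' with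
  | add p q hp hq => rw [map_add, map_add, map_add, hp, hq, fromBlocks_add]; simp
  | monomial n c =>
    rw [aeval_monomial, aeval_monomial, aeval_monomial]
    have hn : (fromBlocks X 0 0 Y) ^ n = fromBlocks (X ^ n) 0 0 (Y ^ n) := by
      induction n with
      | zero => simp only [pow_zero, fromBlocks_one]
      | succ n ih => rw [pow_succ, pow_succ, pow_succ, ih, fromBlocks_multiply]; simp
    rw [Algebra.algebraMap_eq_smul_one, Algebra.algebraMap_eq_smul_one,
      Algebra.algebraMap_eq_smul_one, smul_mul_assoc,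
      smul_mul_assoc, smul_mul_assoc, one_mul, one_mul, one_mul, hn, fromBlocks_smul]
    simp

theorem aeval_submatrix (X : Matrix ι ι F) (e : κ ≃ ι) (p : K[X]) :
    aeval (X.submatrix e e) p = (aeval X p).submatrix e e := by
  have h := Polynomial.aeval_algHom_apply (Matrix.reindexAlgEquiv K F e.symm : Matrix ι ι F →ₐ[K] Matrix κ κ F) X p
  have h2 : ∀ Z : Matrix ι ι F, (Matrix.reindexAlgEquiv K F e.symm : Matrix ι ι F →ₐ[K] Matrix κ κ F) Z
      = Z.submatrix e e := by
    intro Z
    rfl
  rw [h2, h2] at h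
  exact h

/-- `a` is invertible, good, and its norm is annihilated by `χ`. -/
structure GA (σ : F ≃+* F) (r : ℕ) (a : Matrix ι ι F) (χ : K[X]) : Prop where
  det : a.det ≠ 0
  good : Good σ a
  ann : aeval (nm σ a r) χ = 0

theorem GA.step [Finite F] (σ : F ≃+* F) (hσ : ∃ c, σ (σ c) ≠ c) (r : ℕ) (hr : ∀ c, σ^[r] c = c)
    (hcard : Fintype.card κ ≤ Fintype.card ι)
    [Nonempty ι] (a₁ : Matrix κ κ F) (a' : Matrix ι ι F) (f χ : K[X]) (h1 : a₁.det ≠ 0)
    (hf : aeval (nm σ a₁ r) f = 0) (hG : GA σ r a' χ) (hc : IsCoprime f χ) :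
    GA σ r (fromBlocks a₁ 0 0 a') (f * χ) := by
  refine ⟨?_, ?_, ?_⟩
  · rw [det_fromBlocks_zero₂₁]
    exact mul_ne_zero h1 hG.det
  · refine good_step σ hσ hcard a₁ a' h1 hG.det ?_ ?_ hG.good
    · intro y hy
      have := nm_intertwine σ a' a₁ y hy r
      have hy2 : y.map (σ^[r]) = y := by
        ext i j
        simp [Matrix.map_apply, hr]
      rw [hy2] at this
      exact eq_zero_of_coprime _ _ y this χ f hc.symm hG.ann hf
    · intro y hy
      have := nm_intertwine σ a₁ a' y hy r
      have hy2 : y.map (σ^[r]) = y := by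
        ext i j
        simp [Matrix.map_apply, hr]
      rw [hy2] at this
      exact eq_zero_of_coprime _ _ y this f χ hc hf hG.ann
  · rw [nm_fromBlocks, aeval_fromBlocks, map_mul, map_mul, hf, hG.ann]
    simp

theorem Good.submatrix (σ : F ≃+* F) (a : Matrix ι ι F) (e : κ ≃ ι) (h : Good σ a) :
    Good σ (a.submatrix e e) := by
  intro z hz
  rw [det_submatrix_equiv_self] at hz
  obtain ⟨A, B, ⟨u, hu1, hu2⟩, ⟨v, hv1, hv2⟩, hAB⟩ := h (z.submatrix e.symm e.symm) (by
    rw [det_submatrix_equiv_self, hz])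
  refine ⟨A.submatrix e e, B.submatrix e e, ⟨u.submatrix e e, ?_, ?_⟩, ⟨v.submatrix e e, ?_, ?_⟩, ?_⟩
  · rw [det_submatrix_equiv_self, hu1]
  · rw [Matrix.submatrix_mul_equiv, hu2, ← Matrix.submatrix_map, Matrix.submatrix_mul_equiv]
  · rw [det_submatrix_equiv_self, hv1]
  · rw [Matrix.submatrix_mul_equiv, hv2, ← Matrix.submatrix_map, Matrix.submatrix_mul_equiv]
  · rw [← Matrix.submatrix_map, Matrix.submatrix_mul_equiv, ← hAB]
    simp

theorem GA.submatrix (σ : F ≃+* F) (r : ℕ) (a : Matrix ι ι F) (χ : K[X]) (e : κ ≃ ι)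
    (h : GA σ r a χ) : GA σ r (a.submatrix e e) χ := by
  refine ⟨?_, h.good.submatrix σ a e, ?_⟩
  · rw [det_submatrix_equiv_self]
    exact h.det
  · rw [nm_submatrix, aeval_submatrix, h.ann]
    simp

end ann

end CosetThompson
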