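import Pool.Agent.Helper47.CT.Vec

/-! # A semilinear map has a matrix with prescribed upper left block -/

open Matrix Module

namespace CosetThompson

theorem sumExtend_inl {ι K V : Type*} [DivisionRing K] [AddCommGroup V] [Module K V] {v : ι → V}
    (hs : LinearIndependent K v) (i : ι) : (Basis.sumExtend hs) (Sum.inl i) = v i := by
  unfold Basis.sumExtend
  simp
  rfl

variable {F : Type*} [Field F] [Finite F]
variable {κ ι : Type*} [Fintype κ] [DecidableEq κ] [Fintype ι] [DecidableEq ι]

theorem exists_block (τ : F ≃+* F) (hτ : ∃ c, τ c ≠ c) (hcard : Fintype.card κ ≤ Fintype.card ι)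
    [Nonempty ι] (z : Matrix (κ ⊕ ι) (κ ⊕ ι) F) (hz : z.det ≠ 0) (h₁ : Matrix κ κ F) :
    ∃ g M : Matrix (κ ⊕ ι) (κ ⊕ ι) F, g.det = 1 ∧ g * M = z * g.map τ ∧ M.toBlocks₁₁ = h₁ := by
  classical
  -- the semilinear map
  set T : (κ ⊕ ι → F) → (κ ⊕ ι → F) := fun v => z *ᵥ (fun i => τ (v i)) with hT
  have hadd : ∀ x y, T (x + y) = T x + T y := by
    intro x y
    simp only [hT, Pi.add_apply, map_add]
    exact Matrix.mulVec_add z _ _
  have hsmul : ∀ (c : F) x, T (c • x) = τ c • T x := by
    intro c x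
    simp only [hT, Pi.smul_apply, smul_eq_mul, map_mul]
    exact Matrix.mulVec_smul z (τ c) _
  have hinj : ∀ x, T x = 0 → x = 0 := by
    intro x hx
    have h1 := Matrix.eq_zero_of_mulVec_eq_zero hz hx
    funext i
    have h2 := congrFun h1 i
    simpa using h2
  have hfr : finrank F (κ ⊕ ι → F) = Fintype.card κ + Fintype.card ι := by
    rw [Module.finrank_fintype_fun_eq_card, Fintype.card_sum]
  obtain ⟨w₀, hw₀⟩ := exists_indep τ hτ T hadd hsmul hinj (Fintype.card κ) (by rw [hfr]; omega)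
  set e := Fintype.equivFin κ with he
  set w : κ → (κ ⊕ ι → F) := fun k => w₀ (e k) with hw
  have hwi : ∀ a b : κ → F, ∑ i, a i • w i + ∑ i, b i • T (w i) = 0 → (∀ i, a i = 0) ∧ ∀ i, b i = 0 := by
    intro a b hab
    have h1 := Fintype.linearIndependent_iff.mp hw₀
      (Sum.elim (fun i => a (e.symm i)) (fun i => b (e.symm i))) (by
        rw [Fintype.sum_sum_type, ← hab]
        congr 1
        · simp only [Sum.elim_inl]
          rw [← Equiv.sum_comp e]
          simp [hw]
        · simp only [Sum.elim_inr, Function.comp_apply]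
          rw [← Equiv.sum_comp e]
          simp [hw])
    refine ⟨fun i => ?_, fun i => ?_⟩
    · simpa using h1 (Sum.inl (e i))
    · simpa using h1 (Sum.inr (e i))
  set y : κ → (κ ⊕ ι → F) := fun j => T (w j) - ∑ i, h₁ i j • w i with hy
  have hli : LinearIndependent F (Sum.elim w y) := by
    rw [Fintype.linearIndependent_iff]
    intro g hg
    rw [Fintype.sum_sum_type] at hg
    simp only [Sum.elim_inl, Sum.elim_inr, hy] at hg
    have h1 := hwi (fun i => g (Sum.inl i) - ∑ j, g (Sum.inr j) * h₁ i j) (fun j => g (Sum.inr j)) (by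
      rw [← hg]
      simp only [sub_smul, smul_sub, Finset.sum_sub_distrib, Finset.sum_smul, Finset.smul_sum,
        smul_smul]
      rw [Finset.sum_comm]
      abel)
    obtain ⟨h2, h3⟩ := h1
    intro i
    rcases i with i | i
    · have := h2 i
      simp only [h3, zero_mul, Finset.sum_const_zero, sub_zero] at this
      exact this
    · exact h3 i
  -- extend to a basis
  set B := Basis.sumExtend hli with hB
  have : Finite (Basis.sumExtendIndex hli) := by
    have : Finite ((κ ⊕ κ) ⊕ Basis.sumExtendIndex hli) := Module.Finite.finite_basis B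
    exact Finite.of_injective (Sum.inr : _ → (κ ⊕ κ) ⊕ Basis.sumExtendIndex hli) Sum.inr_injective
  let : Fintype (Basis.sumExtendIndex hli) := Fintype.ofFinite _
  have hcJ : Fintype.card κ + Fintype.card (Basis.sumExtendIndex hli) = Fintype.card ι := by
    have h1 := Module.finrank_eq_card_basis B
    rw [hfr, Fintype.card_sum, Fintype.card_sum] at h1
    omega
  obtain ⟨f⟩ : Nonempty (κ ⊕ Basis.sumExtendIndex hli ≃ ι) := by
    rw [← Fintype.card_eq, Fintype.card_sum]
    exact hcJ
  -- the columns of the base change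
  set col : κ ⊕ ι → (κ ⊕ ι → F) := Sum.elim w
    (fun t => B (Sum.elim (fun k => Sum.inl (Sum.inr k)) Sum.inr (f.symm t))) with hcol
  have hcolB : ∀ s, col s = B (((Equiv.sumCongr (Equiv.refl κ) f.symm).trans
      (Equiv.sumAssoc κ κ (Basis.sumExtendIndex hli)).symm) s) := by
    intro s
    rcases s with k | t
    · simp only [hcol, Sum.elim_inl, Equiv.trans_apply, Equiv.sumCongr_apply, Sum.map_inl,
        Equiv.refl_apply, Equiv.sumAssoc_symm_apply_inl]
      rw [hB, sumExtend_inl]
      rfl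
    · simp only [hcol, Sum.elim_inr, Equiv.trans_apply, Equiv.sumCongr_apply, Sum.map_inr]
      rcases f.symm t with k | j
      · simp
      · simp
  have hcolli : LinearIndependent F col := by
    have h1 := B.linearIndependent.comp _ ((Equiv.sumCongr (Equiv.refl κ) f.symm).trans
      (Equiv.sumAssoc κ κ (Basis.sumExtendIndex hli)).symm).injective
    have h2 : col = (B : (κ ⊕ κ) ⊕ Basis.sumExtendIndex hli → (κ ⊕ ι → F)) ∘
        ((Equiv.sumCongr (Equiv.refl κ) f.symm).trans
          (Equiv.sumAssoc κ κ (Basis.sumExtendIndex hli)).symm) := funext hcolB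
    rw [h2]
    exact h1
  set g₀ : Matrix (κ ⊕ ι) (κ ⊕ ι) F := Matrix.of (fun i s => col s i) with hg₀
  have hg₀d : g₀.det ≠ 0 := by
    have h1 : IsUnit g₀ := by
      rw [← Matrix.linearIndependent_cols_iff_isUnit]
      exact hcolli
    exact ((Matrix.isUnit_iff_isUnit_det _).mp h1).ne_zero
  -- normalise the determinant
  obtain ⟨t₀⟩ := ‹Nonempty ι›
  set D : Matrix (κ ⊕ ι) (κ ⊕ ι) F := diagonal (fun s => if s = Sum.inr t₀ then (g₀.det)⁻¹ else 1) with hD
  set g := g₀ * D with hg
  have hDdet : D.det = (g₀.det)⁻¹ := by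
    rw [hD, det_diagonal, Finset.prod_ite_eq']
    simp
  have hgdet : g.det = 1 := by
    rw [hg, det_mul, hDdet, mul_inv_cancel₀ hg₀d]
  have hgu : IsUnit g.det := by rw [hgdet]; exact isUnit_one
  refine ⟨g, g⁻¹ * (z * g.map τ), hgdet, Matrix.mul_nonsing_inv_cancel_left _ _ hgu, ?_⟩
  -- compute the columns `inl j`
  have hgcol : ∀ j : κ, ∀ i, g i (Sum.inl j) = w j i := by
    intro j i
    rw [hg, hD, Matrix.mul_diagonal, if_neg (by simp), mul_one]
    rfl
  have hyc : ∀ j : κ, ∀ i, y j i = g₀ i (Sum.inr (f (Sum.inl j))) := by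
    intro j i
    simp only [hg₀, Matrix.of_apply, hcol, Sum.elim_inr, Equiv.symm_apply_apply, Sum.elim_inl]
    rw [hB, sumExtend_inl]
    rfl
  set d : κ ⊕ ι → F := fun s => if s = Sum.inr t₀ then (g₀.det)⁻¹ else 1 with hd
  have hdne : ∀ s, d s ≠ 0 := by
    intro s
    simp only [hd]
    split_ifs
    · exact inv_ne_zero hg₀d
    · exact one_ne_zero
  have hyc' : ∀ j : κ, ∀ i, y j i = g i (Sum.inr (f (Sum.inl j))) * (d (Sum.inr (f (Sum.inl j))))⁻¹ := by
    intro j i
    rw [hyc, hg, hD, Matrix.mul_diagonal]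
    have := hdne (Sum.inr (f (Sum.inl j)))
    simp only [hd] at this ⊢
    rw [mul_assoc, mul_inv_cancel₀ this, mul_one]
  -- the candidate column
  have hmain : ∀ j : κ, (z * g.map τ) *ᵥ (Pi.single (Sum.inl j) 1) =
      g *ᵥ (Sum.elim (fun i => h₁ i j)
        (Pi.single (f (Sum.inl j)) (d (Sum.inr (f (Sum.inl j))))⁻¹)) := by
    intro j
    funext i
    have e1 : ((z * g.map τ) *ᵥ (Pi.single (Sum.inl j) 1)) i = T (w j) i := by
      rw [Matrix.mulVec_single_one]
      simp only [Matrix.col_apply, Matrix.mul_apply, Matrix.map_apply, hgcol, hT, Matrix.mulVec,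
        dotProduct]
    have e2 : (g *ᵥ (Sum.elim (fun i => h₁ i j)
        (Pi.single (f (Sum.inl j)) (d (Sum.inr (f (Sum.inl j))))⁻¹))) i =
        ∑ k, w k i * h₁ k j + g i (Sum.inr (f (Sum.inl j))) * (d (Sum.inr (f (Sum.inl j))))⁻¹ := by
      simp only [Matrix.mulVec, dotProduct, Fintype.sum_sum_type, Sum.elim_inl, Sum.elim_inr, hgcol]
      congr 1
      rw [Finset.sum_eq_single (f (Sum.inl j))]
      · rw [Pi.single_eq_same]
      · intro b _ hb
        rw [Pi.single_eq_of_ne hb, mul_zero]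
      · intro h
        exact absurd (Finset.mem_univ _) h
    rw [e1, e2, ← hyc']
    simp only [hy, Pi.sub_apply, Finset.sum_apply, Pi.smul_apply, smul_eq_mul]
    have e3 : ∑ k, w k i * h₁ k j = ∑ k, h₁ k j * w k i :=
      Finset.sum_congr rfl fun k _ => mul_comm _ _
    rw [e3]
    ring
  ext i j
  have h1 : (g⁻¹ * (z * g.map τ)) *ᵥ (Pi.single (Sum.inl j) 1) =
      Sum.elim (fun i => h₁ i j) (Pi.single (f (Sum.inl j)) (d (Sum.inr (f (Sum.inl j))))⁻¹) := by
    rw [← Matrix.mulVec_mulVec, hmain, Matrix.mulVec_mulVec, Matrix.nonsing_inv_mul _ hgu,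
      Matrix.one_mulVec]
  have h2 := congrFun h1 (Sum.inl i)
  rw [Matrix.mulVec_single_one] at h2
  simpa [Matrix.toBlocks₁₁] using h2

end CosetThompson
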