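import Pool.Agent.Helper47.CT.Lang2

/-! # Good matrices of every size and determinant -/

open Matrix Module Polynomial TensorProduct

namespace CosetThompson

theorem zpow_add_ne {G : Type*} [Group G] (g : G) (m : ℤ) (k : ℕ) (hk : 0 < k)
    (hk2 : k < orderOf g) : g ^ (m + k) ≠ g ^ m := by
  intro h
  rw [_root_.zpow_add, zpow_natCast] at h
  have h1 : g ^ k = 1 := by simpa using h
  exact absurd (Nat.le_of_dvd hk (orderOf_dvd_of_pow_eq_one h1)) (by omega)

theorem exists_two {G : Type*} [CommGroup G] [IsCyclic G] (h : 4 ≤ Nat.card G) (d : G) :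
    ∃ a b : G, a ≠ b ∧ a * b = d := by
  obtain ⟨g, hg⟩ := IsCyclic.exists_generator (α := G)
  have ho : orderOf g = Nat.card G := orderOf_eq_card_of_forall_mem_zpowers hg
  obtain ⟨e, he⟩ := hg d
  simp only at he
  have h3 : e % 2 = 0 ∨ e % 2 = 1 := by omega
  rcases h3 with h3 | h3
  · refine ⟨g ^ (e / 2 - 1 + (2 : ℕ)), g ^ (e / 2 - 1), zpow_add_ne g _ _ (by omega) (by omega), ?_⟩
    rw [← _root_.zpow_add, ← he]
    congr 1
    push_cast
    omega
  · refine ⟨g ^ (e / 2 + (1 : ℕ)), g ^ (e / 2), zpow_add_ne g _ _ (by omega) (by omega), ?_⟩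
    rw [← _root_.zpow_add, ← he]
    congr 1
    push_cast
    omega

theorem exists_three {G : Type*} [CommGroup G] [IsCyclic G] (h : 4 ≤ Nat.card G) (d : G) :
    ∃ a b c : G, a ≠ b ∧ a ≠ c ∧ b ≠ c ∧ a * (b * c) = d := by
  obtain ⟨g, hg⟩ := IsCyclic.exists_generator (α := G)
  have ho : orderOf g = Nat.card G := orderOf_eq_card_of_forall_mem_zpowers hg
  obtain ⟨e, he⟩ := hg d
  simp only at he
  have hne : ∀ m n : ℤ, n < m → m < n + 4 → g ^ m ≠ g ^ n := by
    intro m n h1 h2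
    have h3 : m = n + ((m - n).toNat : ℕ) := by omega
    rw [h3]
    exact zpow_add_ne g _ _ (by omega) (by omega)
  have h3 : e % 3 = 0 ∨ e % 3 = 1 ∨ e % 3 = 2 := by omega
  rcases h3 with h3 | h3 | h3
  · refine ⟨g ^ (e / 3 + 1), g ^ (e / 3), g ^ (e / 3 - 1), hne _ _ (by omega) (by omega),
      hne _ _ (by omega) (by omega), hne _ _ (by omega) (by omega), ?_⟩
    rw [← _root_.zpow_add, ← _root_.zpow_add, ← he]
    congr 1
    omega
  · refine ⟨g ^ (e / 3 + 2), g ^ (e / 3), g ^ (e / 3 - 1), hne _ _ (by omega) (by omega),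
      hne _ _ (by omega) (by omega), hne _ _ (by omega) (by omega), ?_⟩
    rw [← _root_.zpow_add, ← _root_.zpow_add, ← he]
    congr 1
    omega
  · refine ⟨g ^ (e / 3 + 2), g ^ (e / 3 + 1), g ^ (e / 3 - 1), hne _ _ (by omega) (by omega),
      hne _ _ (by omega) (by omega), hne _ _ (by omega) (by omega), ?_⟩
    rw [← _root_.zpow_add, ← _root_.zpow_add, ← he]
    congr 1
    omega

/-- a one by one matrix -/
def sc {F : Type*} (c : F) : Matrix Unit Unit F := Matrix.of fun _ _ => c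

section main

variable {K F : Type*} [Field K] [Field F] [Algebra K F]

theorem det_sc (c : F) : (sc c).det = c := by
  rw [Matrix.det_unique]
  rfl

theorem nm_sc (σ : F ≃+* F) (c : F) (k : ℕ) : nm σ (sc c) k = sc (pw (σ : F →+* F) c k) := by
  induction k with
  | zero =>
    ext i j
    simp [nm, pw, sc]
  | succ k ih =>
    have e : nm σ (sc c) (k + 1) = sc c * (nm σ (sc c) k).map σ := rfl
    rw [e, ih]
    ext i j
    simp only [pw, sc, Matrix.mul_apply, Matrix.of_apply, Matrix.map_apply]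
    simp

theorem GA_sc (σ : F ≃+* F) (r : ℕ) (c : F) (hc : c ≠ 0) (x : K)
    (hx : pw (σ : F →+* F) c r = algebraMap K F x) : GA σ r (sc c) (X - C x : K[X]) := by
  refine ⟨?_, ?_, ?_⟩
  · rw [det_sc]
    exact hc
  · intro z hz
    rw [det_sc] at hz
    refine ⟨sc c, sc c, ⟨1, by simp, by rw [map_one']; simp⟩, ⟨1, by simp, by rw [map_one']; simp⟩, ?_⟩
    rw [Matrix.det_unique] at hz
    ext i j
    simp only [sc, Matrix.mul_apply, Matrix.of_apply, Matrix.map_apply]
    simpa using hz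
  · rw [nm_sc, hx, map_sub, aeval_X, aeval_C]
    ext i j
    simp [sc, Matrix.algebraMap_matrix_apply]

theorem coprime_linear (f : K[X]) (hf : Irreducible f) (h : 1 < f.natDegree) (x : K) :
    IsCoprime f (X - C x) := by
  rw [hf.coprime_iff_not_dvd]
  intro hd
  have := Polynomial.natDegree_le_of_dvd hd (X_sub_C_ne_zero x)
  rw [natDegree_X_sub_C] at this
  omega

/-- the data: `K` is the fixed field of `σ`, `r` the order of `σ`, `σ² ≠ 1` -/
structure Dat (K : Type*) {F : Type*} [Field K] [Field F] [Algebra K F] (σ : F ≃+* F) (r : ℕ) :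
    Prop where
  hK : ∀ k : K, σ (algebraMap K F k) = algebraMap K F k
  hfix : ∀ c, σ c = c → ∃ k : K, algebraMap K F k = c
  hr : ∀ c, σ^[r] c = c
  hr0 : 0 < r
  hmin : ∀ i, 0 < i → i < r → ∃ c, σ^[i] c ≠ c
  hσ : ∃ c, σ (σ c) ≠ c
  hcard : 5 ≤ Nat.card K

theorem norm_fix {σ : F ≃+* F} {r : ℕ} (D : Dat K σ r) (c : F) (hc : c ≠ 0) :
    ∃ x : K, pw (σ : F →+* F) c r = algebraMap K F x := by
  have h1 := pw_fixed (σ : F →+* F) r D.hr c (isUnit_iff_ne_zero.mpr hc)
  obtain ⟨x, hx⟩ := D.hfix _ h1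
  exact ⟨x, hx.symm⟩

theorem norm_exists [Finite F] {σ : F ≃+* F} {r : ℕ} (D : Dat K σ r) (x : K) (hx : x ≠ 0) :
    ∃ c : F, c ≠ 0 ∧ pw (σ : F →+* F) c r = algebraMap K F x := by
  obtain ⟨b, hb, hb2⟩ := lang (Basis.singleton Unit K) σ D.hK D.hfix r D.hr D.hr0 D.hmin x hx
  have hbs : b = sc (b () ()) := by
    ext i j
    rfl
  refine ⟨b () (), ?_, ?_⟩
  · rw [hbs, det_sc] at hb
    exact hb
  · have h1 := hb2 (X - C x) (by simp)
    rw [hbs, nm_sc, map_sub, aeval_X, aeval_C, sub_eq_zero] at h1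
    have h2 := congrFun (congrFun h1 ()) ()
    simpa [sc, Matrix.algebraMap_matrix_apply] using h2

/-- existence of good matrices of size `n` -/
def E (K : Type*) {F : Type*} [Field K] [Field F] [Algebra K F] (σ : F ≃+* F) (r n : ℕ) : Prop :=
  ∀ δ : F, δ ≠ 0 → ∃ (a : Matrix (Fin n) (Fin n) F) (χ : K[X]), a.det = δ ∧ GA σ r a χ ∧
    ∀ f : K[X], Irreducible f → 1 < f.natDegree → n / 2 < f.natDegree → IsCoprime f χ

theorem E.of_type {ι : Type*} [Fintype ι] [DecidableEq ι] {σ : F ≃+* F} {r n : ℕ}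
    (hn : Fintype.card ι = n) {δ : F} {a : Matrix ι ι F} {χ : K[X]} (h1 : a.det = δ)
    (h2 : GA σ r a χ) (h3 : ∀ f : K[X], Irreducible f → 1 < f.natDegree → n / 2 < f.natDegree →
      IsCoprime f χ) :
    ∃ (a : Matrix (Fin n) (Fin n) F) (χ : K[X]), a.det = δ ∧ GA σ r a χ ∧
    ∀ f : K[X], Irreducible f → 1 < f.natDegree → n / 2 < f.natDegree → IsCoprime f χ := by
  obtain ⟨e⟩ : Nonempty (Fin n ≃ ι) := by
    rw [← Fintype.card_eq, Fintype.card_fin, hn]
  exact ⟨a.submatrix e e, χ, by rw [det_submatrix_equiv_self, h1], h2.submatrix σ r a χ e, h3⟩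

theorem E_one {σ : F ≃+* F} {r : ℕ} (D : Dat K σ r) : E K σ r 1 := by
  intro δ hδ
  obtain ⟨x, hx⟩ := norm_fix D δ hδ
  exact E.of_type (ι := Unit) (by simp) (det_sc δ) (GA_sc σ r δ hδ x hx)
    (fun f hf h1 _ => coprime_linear f hf h1 x)

theorem pw_ne_zero {σ : F ≃+* F} {r : ℕ} (c : F) (hc : c ≠ 0) : pw (σ : F →+* F) c r ≠ 0 := by
  induction r with
  | zero => simp [pw]
  | succ k ih =>
    simp only [pw]
    exact mul_ne_zero hc (by simpa using ih)

theorem coprime_linear_linear (x y : K) (h : x ≠ y) : IsCoprime (X - C x : K[X]) (X - C y) :=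
  Polynomial.isCoprime_X_sub_C_of_isUnit_sub (by
    rw [isUnit_iff_ne_zero]
    exact sub_ne_zero.mpr h)

theorem E_two [Finite F] {σ : F ≃+* F} {r : ℕ} (D : Dat K σ r) [Finite K] : E K σ r 2 := by
  intro δ hδ
  obtain ⟨d, hd⟩ := norm_fix D δ hδ
  have hd0 : d ≠ 0 := by
    rintro rfl
    rw [map_zero] at hd
    exact pw_ne_zero δ hδ hd
  have hc : 4 ≤ Nat.card Kˣ := by
    rw [Nat.card_units]
    have := D.hcard
    omega
  obtain ⟨x, y, hxy, hxyd⟩ := exists_two hc (Units.mk0 d hd0)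
  obtain ⟨c, hc0, hc1⟩ := norm_exists D (x : K) x.ne_zero
  have hc2 : pw (σ : F →+* F) (c⁻¹ * δ) r = algebraMap K F y := by
    have h1 : pw (σ : F →+* F) c r * pw (σ : F →+* F) (c⁻¹ * δ) r = pw (σ : F →+* F) δ r := by
      rw [← pw_mul, mul_inv_cancel_left₀ hc0]
    rw [hc1, hd] at h1
    have h2 : d = x * y := by
      have := congrArg Units.val hxyd
      simpa using this.symm
    rw [h2, map_mul] at h1
    exact mul_left_cancel₀ (by simp) h1
  have hne : c⁻¹ * δ ≠ 0 := mul_ne_zero (inv_ne_zero hc0) hδ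
  have h1 := GA_sc (K := K) σ r c hc0 x hc1
  have h2 := GA_sc (K := K) σ r (c⁻¹ * δ) hne y hc2
  have h3 := GA.step σ D.hσ r D.hr (by simp) (sc c) (sc (c⁻¹ * δ)) _ _ h1.det h1.ann h2
    (coprime_linear_linear _ _ (fun h => hxy (Units.ext h)))
  refine E.of_type (ι := Unit ⊕ Unit) (by simp) ?_ h3 (fun f hf h1 _ =>
    (coprime_linear f hf h1 _).mul_right (coprime_linear f hf h1 _))
  rw [det_fromBlocks_zero₂₁, det_sc, det_sc, mul_inv_cancel_left₀ hc0]

theorem E_three [Finite F] {σ : F ≃+* F} {r : ℕ} (D : Dat K σ r) [Finite K] : E K σ r 3 := by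
  intro δ hδ
  obtain ⟨d, hd⟩ := norm_fix D δ hδ
  have hd0 : d ≠ 0 := by
    rintro rfl
    rw [map_zero] at hd
    exact pw_ne_zero δ hδ hd
  have hc : 4 ≤ Nat.card Kˣ := by
    rw [Nat.card_units]
    have := D.hcard
    omega
  obtain ⟨x, y, w, hxy, hxw, hyw, hxyd⟩ := exists_three hc (Units.mk0 d hd0)
  obtain ⟨c, hc0, hc1⟩ := norm_exists D (x : K) x.ne_zero
  obtain ⟨e, he0, he1⟩ := norm_exists D (y : K) y.ne_zero
  have hc2 : pw (σ : F →+* F) (e⁻¹ * (c⁻¹ * δ)) r = algebraMap K F w := by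
    have h1 : pw (σ : F →+* F) c r * (pw (σ : F →+* F) e r * pw (σ : F →+* F) (e⁻¹ * (c⁻¹ * δ)) r) =
        pw (σ : F →+* F) δ r := by
      rw [← pw_mul, ← pw_mul, mul_inv_cancel_left₀ he0, mul_inv_cancel_left₀ hc0]
    rw [hc1, he1, hd] at h1
    have h2 : d = x * (y * w) := by
      have := congrArg Units.val hxyd
      simpa using this.symm
    rw [h2, map_mul, map_mul] at h1
    exact mul_left_cancel₀ (by simp) (mul_left_cancel₀ (by simp) h1)
  have hne : e⁻¹ * (c⁻¹ * δ) ≠ 0 := mul_ne_zero (inv_ne_zero he0) (mul_ne_zero (inv_ne_zero hc0) hδ)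
  have h1 := GA_sc (K := K) σ r c hc0 x hc1
  have h2 := GA_sc (K := K) σ r e he0 y he1
  have h3 := GA_sc (K := K) σ r (e⁻¹ * (c⁻¹ * δ)) hne w hc2
  have h4 := GA.step σ D.hσ r D.hr (by simp) (sc e) _ _ _ h2.det h2.ann h3
    (coprime_linear_linear _ _ (fun h => hyw (Units.ext h)))
  have h5 := GA.step σ D.hσ r D.hr (by simp) (sc c) _ _ _ h1.det h1.ann h4
    ((coprime_linear_linear _ _ (fun h => hxy (Units.ext h))).mul_right
      (coprime_linear_linear _ _ (fun h => hxw (Units.ext h))))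
  refine E.of_type (ι := Unit ⊕ (Unit ⊕ Unit)) (by simp) ?_ h5 (fun f hf h1 _ =>
    (coprime_linear f hf h1 _).mul_right ((coprime_linear f hf h1 _).mul_right
      (coprime_linear f hf h1 _)))
  rw [det_fromBlocks_zero₂₁, det_fromBlocks_zero₂₁, det_sc, det_sc, det_sc,
    mul_inv_cancel_left₀ he0, mul_inv_cancel_left₀ hc0]

theorem exists_irr_block [Finite F] {σ : F ≃+* F} {r : ℕ} (D : Dat K σ r) [Finite K] (k : ℕ) (hk : 2 ≤ k) :
    ∃ (b : Matrix (Fin k) (Fin k) F) (f : K[X]), b.det ≠ 0 ∧ Irreducible f ∧ f.natDegree = k ∧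
      aeval (nm σ b r) f = 0 := by
  obtain ⟨p, hp⟩ := CharP.exists K
  have hp' : Fact p.Prime := ⟨CharP.char_is_prime K p⟩
  have : NeZero k := ⟨by omega⟩
  have hfr : finrank K (FiniteField.Extension K p k) = k := FiniteField.finrank_extension K p k
  obtain ⟨l, hl⟩ := Field.exists_primitive_element K (FiniteField.Extension K p k)
  have hdeg : (minpoly K l).natDegree = k := by
    exact ((Field.primitive_element_iff_minpoly_natDegree_eq K l).mp hl).trans hfr
  have hl0 : l ≠ 0 := by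
    rintro rfl
    rw [minpoly.zero, natDegree_X] at hdeg
    omega
  obtain ⟨b, hb, hb2⟩ := lang (finBasisOfFinrankEq K (FiniteField.Extension K p k) hfr) σ D.hK
    D.hfix r D.hr D.hr0 D.hmin l hl0
  exact ⟨b, minpoly K l, hb, minpoly.irreducible (IsIntegral.of_finite K l), hdeg,
    hb2 _ (minpoly.aeval K l)⟩

theorem E_all [Finite F] {σ : F ≃+* F} {r : ℕ} (D : Dat K σ r) [Finite K] (n : ℕ) (hn : 0 < n) :
    E K σ r n := by
  induction n using Nat.strong_induction_on with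
  | _ n ih =>
  rcases Nat.lt_or_ge n 4 with h4 | h4
  · interval_cases n
    · exact E_one D
    · exact E_two D
    · exact E_three D
  intro δ hδ
  obtain ⟨b, f, hb, hf, hfd, hbf⟩ := exists_irr_block D (n / 2) (by omega)
  obtain ⟨a', χ, ha', hG, hχ⟩ := ih (n - n / 2) (by omega) (by omega) (b.det⁻¹ * δ)
    (mul_ne_zero (inv_ne_zero hb) hδ)
  have : Nonempty (Fin (n - n / 2)) := ⟨⟨0, by omega⟩⟩
  have h5 := GA.step σ D.hσ r D.hr (by simp; omega) b a' f χ hb hbf hG
    (hχ f hf (by omega) (by omega))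
  refine E.of_type (ι := Fin (n / 2) ⊕ Fin (n - n / 2)) (by simp; omega) ?_ h5 ?_
  · rw [det_fromBlocks_zero₂₁, ha', mul_inv_cancel_left₀ hb]
  · intro g hg hg1 hg2
    refine IsCoprime.mul_right ?_ (hχ g hg hg1 (by omega))
    rw [hg.coprime_iff_not_dvd]
    intro hd
    have := Polynomial.natDegree_le_of_dvd hd hf.ne_zero
    omega

end main

end CosetThompson
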