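import Pool.Agent.Helper47.CT.Ann

/-! # Surjectivity of the twisted norm on `F ⊗ L` -/

open Matrix Module Polynomial TensorProduct

namespace CosetThompson

section pw

variable {A : Type*} [CommRing A]

/-- `β s(β) ⋯ s^(k-1)(β)` -/
def pw (s : A →+* A) (β : A) : ℕ → A
  | 0 => 1
  | (k + 1) => β * s (pw s β k)

theorem pw_succ' (s : A →+* A) (β : A) (k : ℕ) : pw s β (k + 1) = pw s β k * s^[k] β := by
  induction k with
  | zero => simp [pw]
  | succ k ih =>
    have : pw s β (k + 1 + 1) = β * s (pw s β (k + 1)) := rfl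
    rw [this, ih, map_mul, Function.iterate_succ_apply', ← ih]
    have e : pw s β (k + 1) = β * s (pw s β k) := rfl
    rw [e]
    ring

theorem pw_mul (s : A →+* A) (β γ : A) (k : ℕ) : pw s (β * γ) k = pw s β k * pw s γ k := by
  induction k with
  | zero => simp [pw]
  | succ k ih =>
    simp only [pw, ih, map_mul]
    ring

theorem pw_one (s : A →+* A) (k : ℕ) : pw s 1 k = 1 := by
  induction k with
  | zero => simp [pw]
  | succ k ih =>
    simp only [pw, ih, map_one, mul_one]

theorem pw_fixed (s : A →+* A) (r : ℕ) (hs : ∀ x, s^[r] x = x) (β : A) (hβ : IsUnit β) :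
    s (pw s β r) = pw s β r := by
  have h1 : pw s β (r + 1) = β * s (pw s β r) := rfl
  have h2 := pw_succ' s β r
  rw [hs, h1, mul_comm (pw s β r)] at h2
  exact hβ.mul_left_cancel h2

/-- abstract counting: Hilbert 90 implies surjectivity of the norm onto the fixed units -/
theorem norm_surj [Finite A] (s : A →+* A) (r : ℕ) (hs : ∀ x, s^[r] x = x)
    (h90 : ∀ β : A, IsUnit β → pw s β r = 1 → ∃ y : A, IsUnit y ∧ β * s y = y)
    (x : A) (hx : IsUnit x) (hsx : s x = x) : ∃ β : A, IsUnit β ∧ pw s β r = x := by
  set N : Aˣ →* Aˣ := Units.map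
    { toFun := fun β => pw s β r
      map_one' := pw_one s r
      map_mul' := fun β γ => pw_mul s β γ r } with hN
  set D : Aˣ →* Aˣ :=
    { toFun := fun y => y * (Units.map (s : A →* A) y)⁻¹
      map_one' := by simp
      map_mul' := fun y z => by
        rw [map_mul, mul_inv]
        exact mul_mul_mul_comm _ _ _ _ } with hD
  have h1 : N.ker ≤ D.range := by
    intro β hβ
    have h2 : pw s (β : A) r = 1 := by
      have := (MonoidHom.mem_ker (f := N)).mp hβ
      have := congrArg Units.val this
      simpa [hN] using this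
    obtain ⟨y, hy, hy2⟩ := h90 β β.isUnit h2
    obtain ⟨y, rfl⟩ := hy
    refine ⟨y, ?_⟩
    have e : β * Units.map (s : A →* A) y = y := by
      ext
      simpa using hy2
    simp only [hD, MonoidHom.coe_mk, OneHom.coe_mk]
    nth_rewrite 1 [← e]
    rw [mul_inv_cancel_right]
  have h3 : N.range ≤ D.ker := by
    rintro _ ⟨β, rfl⟩
    rw [MonoidHom.mem_ker]
    have h4 := pw_fixed s r hs (β : A) β.isUnit
    have e : Units.map (s : A →* A) (N β) = N β := by
      ext
      simpa [hN] using h4
    simp only [hD, MonoidHom.coe_mk, OneHom.coe_mk]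
    rw [e, mul_inv_cancel]
  have c1 : Nat.card N.ker * Nat.card N.range = Nat.card Aˣ := by
    rw [← Subgroup.index_ker, Subgroup.card_mul_index]
  have c2 : Nat.card D.ker * Nat.card D.range = Nat.card Aˣ := by
    rw [← Subgroup.index_ker, Subgroup.card_mul_index]
  have c3 : Nat.card N.ker ≤ Nat.card D.range := Subgroup.card_le_of_le h1
  have c4 : Nat.card D.ker ≤ Nat.card N.range := by
    by_contra hlt
    push Not at hlt
    have hpos : 0 < Nat.card D.range := Nat.card_pos
    have : Nat.card N.ker * Nat.card N.range < Nat.card D.range * Nat.card D.ker :=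
      Nat.mul_lt_mul_of_le_of_lt c3 hlt hpos
    rw [c1, mul_comm, c2] at this
    exact lt_irrefl _ this
  have h5 : N.range = D.ker := Subgroup.eq_of_le_of_card_ge h3 c4
  obtain ⟨x, rfl⟩ := hx
  have h6 : x ∈ D.ker := by
    rw [MonoidHom.mem_ker]
    have e : Units.map (s : A →* A) x = x := by
      ext
      simpa using hsx
    simp only [hD, MonoidHom.coe_mk, OneHom.coe_mk]
    rw [e, mul_inv_cancel]
  rw [← h5] at h6
  obtain ⟨β, hβ⟩ := h6
  refine ⟨β, β.isUnit, ?_⟩
  have := congrArg Units.val hβ
  simpa [hN] using this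

end pw

section stable

variable {F : Type*} [Field F] {κ : Type*} [Fintype κ]

theorem exists_fixed (σ : F ≃+* F) (I : Submodule F (κ → F))
    (hI : ∀ x ∈ I, (fun i => σ (x i)) ∈ I) (n : ℕ) :
    ∀ x ∈ I, x ≠ 0 → (Nat.card {i // x i ≠ 0} ≤ n) → ∃ y ∈ I, y ≠ 0 ∧ ∀ i, σ (y i) = y i := by
  classical
  induction n with
  | zero =>
    intro x _ hx h
    exfalso
    apply hx
    funext i
    by_contra hi
    have h1 : Nat.card {i // x i ≠ 0} = 0 := Nat.le_zero.mp h
    rw [Nat.card_eq_zero] at h1
    rcases h1 with h1 | h1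
    · exact h1.false ⟨i, hi⟩
    · exact h1.not_finite inferInstance
  | succ n ih =>
    intro x hxI hx h
    obtain ⟨j, hj⟩ : ∃ j, x j ≠ 0 := by
      by_contra hcon
      push Not at hcon
      exact hx (funext hcon)
    set y := (x j)⁻¹ • x with hy
    have hyI : y ∈ I := I.smul_mem _ hxI
    have hyj : y j = 1 := by simp [hy, inv_mul_cancel₀ hj]
    have hy0 : y ≠ 0 := by
      intro h0
      rw [h0] at hyj
      simp at hyj
    by_cases hfix : ∀ i, σ (y i) = y i
    · exact ⟨y, hyI, hy0, hfix⟩
    push Not at hfix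
    obtain ⟨i, hi⟩ := hfix
    set w : κ → F := (fun i => σ (y i)) - y with hw
    have hwI : w ∈ I := I.sub_mem (hI y hyI) hyI
    refine ih w hwI ?_ ?_
    · intro h0
      apply hi
      have := congrFun h0 i
      simpa [hw, sub_eq_zero] using this
    · have hlt : Nat.card {i // w i ≠ 0} < Nat.card {i // x i ≠ 0} := by
        rw [Nat.card_eq_fintype_card, Nat.card_eq_fintype_card, Fintype.card_subtype,
          Fintype.card_subtype]
        apply Finset.card_lt_card
        rw [Finset.ssubset_iff_of_subset]
        · refine ⟨j, by simpa using hj, ?_⟩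
          simp [hw, hyj]
        · intro i
          simp only [Finset.mem_filter, Finset.mem_univ, true_and]
          intro h1 h2
          apply h1
          simp [hw, hy, h2]
      omega

end stable

end CosetThompson
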