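import Pool.Agent.Helper47.CT.Lang

/-! # The twisted norm on `F ⊗ L` and matrices with prescribed norm -/

open Matrix Module Polynomial TensorProduct

namespace CosetThompson

section tensor

variable {K F L : Type*} [Field K] [Field F] [Field L] [Algebra K F] [Algebra K L]

/-- the action of `σ` on the first factor -/
noncomputable def sF (L : Type*) [Field L] [Algebra K L] (σ : F ≃+* F)
    (hK : ∀ k : K, σ (algebraMap K F k) = algebraMap K F k) :
    F ⊗[K] L →+* F ⊗[K] L :=
  (Algebra.TensorProduct.map (AlgEquiv.ofRingEquiv (f := σ) hK : F ≃ₐ[K] F).toAlgHom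
    (AlgHom.id K L)).toRingHom

theorem sF_tmul (σ : F ≃+* F) (hK : ∀ k : K, σ (algebraMap K F k) = algebraMap K F k)
    (c : F) (l : L) : sF L σ hK (c ⊗ₜ[K] l) = σ c ⊗ₜ[K] l := by
  simp [sF]

theorem sF_iterate (σ : F ≃+* F) (hK : ∀ k : K, σ (algebraMap K F k) = algebraMap K F k)
    (r : ℕ) (hr : ∀ c, σ^[r] c = c) (x : F ⊗[K] L) :
    (sF L σ hK)^[r] x = x := by
  induction x using TensorProduct.induction_on with
  | zero => exact Function.iterate_fixed (map_zero _) r
  | tmul c l =>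
    have : ∀ k, (sF L σ hK)^[k] (c ⊗ₜ[K] l) = (σ^[k] c) ⊗ₜ[K] l := by
      intro k
      induction k with
      | zero => rfl
      | succ k ih =>
        rw [Function.iterate_succ_apply', ih, Function.iterate_succ_apply']
        exact sF_tmul σ hK _ _
    rw [this, hr]
  | add x y hx hy => rw [iterate_map_add, hx, hy]

variable {κ : Type*}

theorem repr_sF (bL : Basis κ K L) (σ : F ≃+* F) (hK : ∀ k : K, σ (algebraMap K F k) = algebraMap K F k)
    (x : F ⊗[K] L) (j : κ) :
    (Algebra.TensorProduct.basis F bL).repr (sF L σ hK x) j =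
      σ ((Algebra.TensorProduct.basis F bL).repr x j) := by
  induction x using TensorProduct.induction_on with
  | zero => simp
  | tmul c l =>
    rw [sF_tmul, Algebra.TensorProduct.basis_repr_tmul, Algebra.TensorProduct.basis_repr_tmul]
    simp [hK]
  | add x y hx hy => rw [map_add, map_add, map_add, Finsupp.add_apply, Finsupp.add_apply,
      map_add, hx, hy]

theorem fixed_eq (bL : Basis κ K L) (σ : F ≃+* F) (hfix : ∀ c, σ c = c → ∃ k : K, algebraMap K F k = c)
    [Fintype κ] (x : F ⊗[K] L)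
    (hx : ∀ j, σ ((Algebra.TensorProduct.basis F bL).repr x j) =
      (Algebra.TensorProduct.basis F bL).repr x j) : ∃ l : L, x = 1 ⊗ₜ[K] l := by
  choose k hk using fun j => hfix _ (hx j)
  refine ⟨∑ j, k j • bL j, ?_⟩
  rw [← (Algebra.TensorProduct.basis F bL).sum_repr x]
  rw [TensorProduct.tmul_sum]
  refine Finset.sum_congr rfl fun j _ => ?_
  rw [← hk j, Algebra.TensorProduct.basis_apply, TensorProduct.tmul_smul, algebraMap_smul]

theorem h90 (bL : Basis κ K L) (σ : F ≃+* F) (hK : ∀ k : K, σ (algebraMap K F k) = algebraMap K F k)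
    (hfix : ∀ c, σ c = c → ∃ k : K, algebraMap K F k = c)
    (r : ℕ) (hr : ∀ c, σ^[r] c = c) (hr0 : 0 < r) (hmin : ∀ i, 0 < i → i < r → ∃ c, σ^[i] c ≠ c)
    [Fintype κ] (β : F ⊗[K] L) (hβ : IsUnit β)
    (hN : pw (sF L σ hK) β r = 1) :
    ∃ y : F ⊗[K] L, IsUnit y ∧ β * sF L σ hK y = y := by
  classical
  set s : F ⊗[K] L →+* F ⊗[K] L := sF L σ hK with hs
  set B := Algebra.TensorProduct.basis F bL with hB
  set y : F → F ⊗[K] L := fun a => ∑ i ∈ Finset.range r, (σ^[i] a) • pw s β i with hy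
  have hsl : ∀ (c : F) (x : F ⊗[K] L), s (c • x) = σ c • s x := by
    intro c x
    have h0 : s (algebraMap F (F ⊗[K] L) c) = algebraMap F (F ⊗[K] L) (σ c) := sF_tmul σ hK c 1
    rw [Algebra.smul_def, map_mul, Algebra.smul_def, h0]
  have hyf : ∀ a, β * s (y a) = y a := by
    intro a
    simp only [hy]
    rw [map_sum, Finset.mul_sum]
    have e1 : ∀ i ∈ Finset.range r, β * s (σ^[i] a • pw s β i) = σ^[i+1] a • pw s β (i + 1) := by
      intro i _
      rw [hsl, Function.iterate_succ_apply', mul_smul_comm]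
      rfl
    rw [Finset.sum_congr rfl e1]
    have e2 := Finset.sum_range_succ' (fun i => σ^[i] a • pw s β i) r
    have e3 := Finset.sum_range_succ (fun i => σ^[i] a • pw s β i) r
    rw [e3] at e2
    have e4 : σ^[r] a • pw s β r = σ^[0] a • pw s β 0 := by
      rw [hN, hr]
      rfl
    rw [e4] at e2
    exact (add_right_cancel e2).symm
  -- nonzero for some `a`
  obtain ⟨a, ha⟩ : ∃ a, y a ≠ 0 := by
    by_contra hcon
    push Not at hcon
    have h1 : B.repr 1 ≠ 0 := by
      intro h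
      have := (LinearEquiv.map_eq_zero_iff B.repr).mp h
      exact one_ne_zero this
    obtain ⟨j, hj⟩ : ∃ j, B.repr 1 j ≠ 0 := by
      by_contra h
      push Not at h
      exact h1 (Finsupp.ext h)
    -- the characters
    set f : Fin r → (F →* F) := fun i => (((σ : F →+* F) ^ (i : ℕ) : F →+* F) : F →* F) with hf
    have hfa : ∀ i x, f i x = σ^[(i : ℕ)] x := by
      intro i x
      simp only [hf]
      have : ((σ : F →+* F) ^ (i : ℕ)) x = (σ : F →+* F)^[(i : ℕ)] x := by
        rw [RingHom.coe_pow]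
      exact this
    have hinj : Function.Injective f := by
      intro i i' hii
      by_contra hne
      wlog hlt : (i : ℕ) < (i' : ℕ) generalizing i i'
      · exact this hii.symm (Ne.symm hne) (lt_of_le_of_ne (not_lt.mp hlt)
          (fun h => hne (Fin.ext h.symm)))
      obtain ⟨c, hc⟩ := hmin ((i' : ℕ) - i) (by omega) (by omega)
      apply hc
      have h2 : σ^[(i : ℕ)] (σ^[(i' : ℕ) - i] c) = σ^[(i : ℕ)] c := by
        rw [← Function.iterate_add_apply, show (i : ℕ) + ((i' : ℕ) - i) = i' by omega,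
          ← hfa, ← hfa, hii]
      exact σ.injective.iterate _ h2
    have hli := (linearIndependent_monoidHom F F).comp f hinj
    rw [Fintype.linearIndependent_iff] at hli
    have h3 := hli (fun i => B.repr (pw s β i) j) (by
      funext x
      have h4 := congrArg (fun v => B.repr v j) (hcon x)
      simp only [hy, map_sum, map_smul, Finsupp.coe_finset_sum, Finset.sum_apply,
        Finsupp.smul_apply, smul_eq_mul, map_zero, Finsupp.zero_apply] at h4
      rw [Finset.sum_range] at h4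
      simp only [Finset.sum_apply, Pi.smul_apply, smul_eq_mul, Pi.zero_apply,
        Function.comp_apply, hfa]
      rw [← h4]
      exact Finset.sum_congr rfl fun i _ => mul_comm _ _) ⟨0, hr0⟩
    exact hj h3
  -- the ideal generated by `y a` contains a nonzero fixed element
  set I : Submodule F (κ → F) :=
    ((Ideal.span {y a}).restrictScalars F).map (B.equivFun : F ⊗[K] L ≃ₗ[F] (κ → F)).toLinearMap
    with hI
  have hmem : ∀ x : F ⊗[K] L, B.equivFun x ∈ I ↔ x ∈ Ideal.span {y a} := by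
    intro x
    constructor
    · rintro ⟨x', hx', hxx⟩
      have : x' = x := B.equivFun.injective hxx
      rw [← this]
      exact hx'
    · intro hx
      exact ⟨x, hx, rfl⟩
  have hstab : ∀ x ∈ I, (fun i => σ (x i)) ∈ I := by
    rintro _ ⟨x, hx, rfl⟩
    have hx' : x ∈ Ideal.span {y a} := hx
    have h5 : (fun i => σ ((B.equivFun.toLinearMap x) i)) = B.equivFun (s x) := by
      funext i
      exact (repr_sF bL σ hK x i).symm
    rw [h5, hmem]
    rw [Ideal.mem_span_singleton] at hx' ⊢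
    obtain ⟨z, hz⟩ := hx'
    rw [hz, map_mul]
    have h6 : y a ∣ s (y a) := by
      obtain ⟨u, hu⟩ := hβ
      refine ⟨(↑u⁻¹ : F ⊗[K] L), ?_⟩
      have := hyf a
      rw [← hu] at this
      nth_rewrite 2 [← this]
      rw [mul_comm (↑u * s (y a)), ← mul_assoc, Units.inv_mul, one_mul]
    exact h6.mul_right _
  obtain ⟨v, hv, hv0, hvf⟩ := exists_fixed σ I hstab _ (B.equivFun (y a))
    ((hmem _).mpr (Ideal.mem_span_singleton_self _))
    (by simpa using ha) le_rfl
  obtain ⟨x, rfl⟩ := B.equivFun.surjective v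
  rw [hmem] at hv
  obtain ⟨l, hl⟩ := fixed_eq bL σ hfix x hvf
  have hl0 : l ≠ 0 := by
    rintro rfl
    rw [TensorProduct.tmul_zero] at hl
    rw [hl] at hv0
    simp at hv0
  refine ⟨y a, ?_, hyf a⟩
  rw [← Ideal.span_singleton_eq_top]
  apply Ideal.eq_top_of_isUnit_mem _ hv
  rw [hl]
  refine IsUnit.of_mul_eq_one (1 ⊗ₜ[K] l⁻¹) ?_
  rw [Algebra.TensorProduct.tmul_mul_tmul, mul_inv_cancel₀ hl0, one_mul]
  rfl

theorem exists_norm (bL : Basis κ K L) (σ : F ≃+* F) (hK : ∀ k : K, σ (algebraMap K F k) = algebraMap K F k)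
    (hfix : ∀ c, σ c = c → ∃ k : K, algebraMap K F k = c)
    (r : ℕ) (hr : ∀ c, σ^[r] c = c) (hr0 : 0 < r) (hmin : ∀ i, 0 < i → i < r → ∃ c, σ^[i] c ≠ c)
    [Finite F] [Fintype κ] (l : L) (hl : l ≠ 0) :
    ∃ β : F ⊗[K] L, IsUnit β ∧ pw (sF L σ hK) β r = 1 ⊗ₜ[K] l := by
  have : Finite (F ⊗[K] L) :=
    Finite.of_injective _ (Algebra.TensorProduct.basis F bL).equivFun.injective
  refine norm_surj (sF L σ hK) r (sF_iterate σ hK r hr) (h90 bL σ hK hfix r hr hr0 hmin)
    (1 ⊗ₜ[K] l) ?_ ?_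
  · refine IsUnit.of_mul_eq_one (1 ⊗ₜ[K] l⁻¹) ?_
    rw [Algebra.TensorProduct.tmul_mul_tmul, mul_inv_cancel₀ hl, one_mul]
    rfl
  · rw [sF_tmul, map_one]

/-- matrices with a prescribed norm -/
theorem lang (bL : Basis κ K L) (σ : F ≃+* F) (hK : ∀ k : K, σ (algebraMap K F k) = algebraMap K F k)
    (hfix : ∀ c, σ c = c → ∃ k : K, algebraMap K F k = c)
    (r : ℕ) (hr : ∀ c, σ^[r] c = c) (hr0 : 0 < r) (hmin : ∀ i, 0 < i → i < r → ∃ c, σ^[i] c ≠ c)
    [Finite F] [Fintype κ] [DecidableEq κ] (l : L) (hl : l ≠ 0) :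
    ∃ b : Matrix κ κ F, b.det ≠ 0 ∧ ∀ p : K[X], aeval l p = 0 → aeval (nm σ b r) p = 0 := by
  obtain ⟨β, hβ, hN⟩ := exists_norm bL σ hK hfix r hr hr0 hmin l hl
  set B := Algebra.TensorProduct.basis F bL with hB
  set Λ := Algebra.leftMulMatrix B with hΛ
  have hmap : ∀ x, (Λ x).map σ = Λ (sF L σ hK x) := by
    intro x
    ext i j
    rw [Matrix.map_apply, hΛ, Algebra.leftMulMatrix_eq_repr_mul, Algebra.leftMulMatrix_eq_repr_mul]
    have h1 : sF L σ hK (B j) = B j := by
      rw [hB, Algebra.TensorProduct.basis_apply, sF_tmul, map_one]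
    nth_rewrite 2 [← h1]
    rw [← map_mul, hB, repr_sF]
  have hnm : ∀ k, nm σ (Λ β) k = Λ (pw (sF L σ hK) β k) := by
    intro k
    induction k with
    | zero => simp [nm, pw]
    | succ k ih => simp only [nm, pw, ih, hmap, map_mul]
  refine ⟨Λ β, ?_, ?_⟩
  · have h1 : IsUnit (Λ β) := hβ.map Λ
    exact ((Matrix.isUnit_iff_isUnit_det _).mp h1).ne_zero
  · intro p hp
    rw [hnm, hN]
    set Φ : L →ₐ[K] Matrix κ κ F := (Λ.restrictScalars K).comp
      (Algebra.TensorProduct.includeRight : L →ₐ[K] F ⊗[K] L) with hΦ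
    have h1 : Λ (1 ⊗ₜ[K] l) = Φ l := rfl
    rw [h1, Polynomial.aeval_algHom_apply, hp, map_zero]

end tensor

end CosetThompson
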