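import Pool.Agent.Helper47.CT.Psl

/-! # The coset Thompson statement for semilinear automorphisms of `PSL_n(F)` -/

open Matrix Module

namespace CosetThompson

/-- the coset `α Inn(G)` of `Aut(G)` -/
def innCoset {G : Type*} [Group G] (α : MulAut G) : Set (MulAut G) :=
  {y | ∃ g : G, y = α * MulAut.conj g}

/-- the orbit of `x` in `Aut(G)` under conjugation by `Inn(G)` -/
def innClass {G : Type*} [Group G] (x : MulAut G) : Set (MulAut G) :=
  {y | ∃ g : G, y = (MulAut.conj g)⁻¹ * x * MulAut.conj g}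

theorem conj_mul_comm {G : Type*} [Group G] (α : MulAut G) (g : G) :
    MulAut.conj g * α = α * MulAut.conj (α⁻¹ g) := by
  apply MulEquiv.ext
  intro x
  simp [MulAut.mul_apply, MulAut.conj_apply]

theorem innClass_sq_sub {G : Type*} [Group G] (α x : MulAut G) (hx : x ∈ innCoset α) :
    ∀ a ∈ innClass x, ∀ b ∈ innClass x, a * b ∈ innCoset (α ^ 2) := by
  obtain ⟨g₀, rfl⟩ := hx
  have key : ∀ a ∈ innClass (α * MulAut.conj g₀), ∃ k : G, a = α * MulAut.conj k := by
    rintro _ ⟨g, rfl⟩
    refine ⟨α⁻¹ g⁻¹ * (g₀ * g), ?_⟩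
    rw [← map_inv, ← mul_assoc, conj_mul_comm, map_mul, map_mul]
    simp only [mul_assoc]
  intro a ha b hb
  obtain ⟨k, rfl⟩ := key a ha
  obtain ⟨l, rfl⟩ := key b hb
  refine ⟨α⁻¹ k * l, ?_⟩
  rw [map_mul, pow_two, mul_assoc α (MulAut.conj k), ← mul_assoc (MulAut.conj k), conj_mul_comm]
  simp only [mul_assoc]

section

variable {F : Type*} [Field F] {n : Type*} [Fintype n] [DecidableEq n]

theorem psl_of_cls (σ : F ≃+* F) (a : GL n F) (A : GL n F) (h : Cls σ (a : Matrix n n F) A) :
    pslAut σ A ∈ innClass (pslAut σ a) := by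
  obtain ⟨u, hu1, hu2⟩ := h
  set u' : SpecialLinearGroup n F := ⟨u, hu1⟩ with hu'
  refine ⟨(u' : ProjectiveSpecialLinearGroup n F), ?_⟩
  rw [mul_assoc, eq_inv_mul_iff_mul_eq, pslAut_conj]
  set P : GL n F := (u' : GL n F) * A with hP
  have hPc : (P : Matrix n n F) = u * A := by
    rw [hP, Units.val_mul]
    rfl
  rw [pslAut_mul _ _ _ _ P (by
      rw [hPc]
      have : (A : Matrix n n F).map (RingEquiv.refl F) = A := by
        ext i j
        simp
      rw [this]
      rfl),
    pslAut_mul _ _ _ _ P (by rw [hPc, hu2]; rfl)]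
  rfl

theorem coset_of_good [Finite F] (σ : F ≃+* F) (m a : GL n F)
    (hdet : (a : Matrix n n F).det = (m : Matrix n n F).det)
    (hG : Good σ (a : Matrix n n F)) :
    pslAut σ a ∈ innCoset (pslAut σ m) ∧
      {y | ∃ b ∈ innClass (pslAut σ a), ∃ c ∈ innClass (pslAut σ a), y = b * c} =
        innCoset (pslAut σ m ^ 2) := by
  have hmdet : (m : Matrix n n F).det ≠ 0 := by
    have := (Matrix.isUnit_iff_isUnit_det _).mp m.isUnit
    exact this.ne_zero
  have hmem : pslAut σ a ∈ innCoset (pslAut σ m) := by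
    have hd : ((((m⁻¹ : GL n F) : Matrix n n F) * (a : Matrix n n F)).map σ.symm).det = 1 := by
      rw [det_map', det_mul, hdet, ← det_mul, ← Units.val_mul, inv_mul_cancel, Units.val_one,
        det_one, map_one]
    set h' : SpecialLinearGroup n F := ⟨_, hd⟩ with hh'
    refine ⟨(h' : ProjectiveSpecialLinearGroup n F), ?_⟩
    rw [pslAut_conj, pslAut_mul _ _ _ _ a]
    · rfl
    · have h1 : ((h' : GL n F) : Matrix n n F) =
        (((m⁻¹ : GL n F) : Matrix n n F) * (a : Matrix n n F)).map σ.symm := rfl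
      rw [h1, map_symm_map, ← Matrix.mul_assoc, ← Units.val_mul, mul_inv_cancel, Units.val_one,
        Matrix.one_mul]
  refine ⟨hmem, Set.Subset.antisymm ?_ ?_⟩
  · rintro _ ⟨b, hb, c, hc, rfl⟩
    exact innClass_sq_sub _ _ hmem b hb c hc
  · rintro _ ⟨g, rfl⟩
    induction g using QuotientGroup.induction_on with
    | H g =>
    set z : Matrix n n F := (m : Matrix n n F) * (m : Matrix n n F).map σ *
      (g : Matrix n n F).map (σ.trans σ) with hz
    have hzdet : z.det = (a : Matrix n n F).det * σ (a : Matrix n n F).det := by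
      rw [hz, det_mul, det_mul, det_map', det_map', g.det_coe, map_one, mul_one, hdet]
    obtain ⟨A, B, hA, hB, hAB⟩ := hG z hzdet
    have hdA : A.det ≠ 0 ∧ B.det ≠ 0 := by
      have h0 : z.det ≠ 0 := by
        rw [hzdet, hdet]
        exact mul_ne_zero hmdet (by simpa using hmdet)
      rw [hAB, det_mul, det_map'] at h0
      refine ⟨left_ne_zero_of_mul h0, ?_⟩
      have := right_ne_zero_of_mul h0
      simpa using this
    set A' := Matrix.GeneralLinearGroup.mkOfDetNeZero A hdA.1 with hA'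
    set B' := Matrix.GeneralLinearGroup.mkOfDetNeZero B hdA.2 with hB'
    have hA'c : (A' : Matrix n n F) = A := rfl
    have hB'c : (B' : Matrix n n F) = B := rfl
    refine ⟨pslAut σ A', psl_of_cls σ a A' (by rw [hA'c]; exact hA), pslAut σ B',
      psl_of_cls σ a B' (by rw [hB'c]; exact hB), ?_⟩
    have hzne : z.det ≠ 0 := by
      rw [hzdet, hdet]
      exact mul_ne_zero hmdet (by simpa using hmdet)
    set Z := Matrix.GeneralLinearGroup.mkOfDetNeZero z hzne with hZ
    have hZc : (Z : Matrix n n F) = z := rfl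
    rw [pslAut_mul σ σ A' B' Z (by rw [hZc, hA'c, hB'c]; exact hAB)]
    have hmm : ((m : Matrix n n F) * (m : Matrix n n F).map σ).det ≠ 0 := by
      rw [det_mul, det_map']
      exact mul_ne_zero hmdet (by simpa using hmdet)
    rw [pow_two, pslAut_mul σ σ m m (Matrix.GeneralLinearGroup.mkOfDetNeZero _ hmm) rfl,
      pslAut_conj, pslAut_mul _ _ _ _ Z]
    · rfl
    · rw [hZc, hz]
      rfl

end

/-- Main theorem. -/
theorem main (F : Type*) [Field F] [Finite F] (σ : F ≃+* F) (hσ : ∃ c, σ (σ c) ≠ c)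
    (hK : 5 ≤ Nat.card {c : F // σ c = c}) (n : ℕ) (hn : 0 < n) (m : GL (Fin n) F) :
    ∃ x ∈ innCoset (pslAut σ m),
      {y | ∃ b ∈ innClass x, ∃ c ∈ innClass x, y = b * c} = innCoset (pslAut σ m ^ 2) := by
  set K : Subfield F := RingHom.eqLocusField (σ : F →+* F) (RingHom.id F) with hKdef
  have hmemK : ∀ c : F, c ∈ K ↔ σ c = c := fun c => Iff.rfl
  set s : RingAut F := σ with hs
  have : Finite (RingAut F) := by
    have : Finite (F → F) := inferInstance
    exact Finite.of_injective (fun t : RingAut F => (fun x => t x : F → F))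
      (fun a b h => RingEquiv.ext (fun x => congrFun h x))
  have hit : ∀ (i : ℕ) (c : F), σ^[i] c = (s ^ i) c := by
    intro i c
    induction i with
    | zero => rfl
    | succ i ih =>
      rw [Function.iterate_succ_apply', ih, pow_succ']
      rfl
  have D : Dat K σ (orderOf s) := by
    refine ⟨fun k => (hmemK _).mp k.2, fun c hc => ⟨⟨c, (hmemK c).mpr hc⟩, rfl⟩, ?_,
      orderOf_pos s, ?_, hσ, ?_⟩
    · intro c
      rw [hit, pow_orderOf_eq_one]
      rfl
    · intro i h1 h2
      by_contra hcon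
      push Not at hcon
      have h3 : s ^ i = 1 := by
        apply RingEquiv.ext
        intro c
        rw [← hit, hcon]
        rfl
      exact absurd (Nat.le_of_dvd h1 (orderOf_dvd_of_pow_eq_one h3)) (by omega)
    · have : Nat.card K = Nat.card {c : F // σ c = c} := rfl
      rw [this]
      exact hK
  have hmdet : (m : Matrix (Fin n) (Fin n) F).det ≠ 0 :=
    ((Matrix.isUnit_iff_isUnit_det _).mp m.isUnit).ne_zero
  obtain ⟨a, χ, ha, hG, -⟩ := E_all D n hn _ hmdet
  obtain ⟨h1, h2⟩ := coset_of_good σ m (Matrix.GeneralLinearGroup.mkOfDetNeZero a hG.det) ha hG.good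
  exact ⟨_, h1, h2⟩

end CosetThompson
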