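import Pool.Agent.Helper47.CT.Exist

/-! # Automorphisms of the projective special linear group -/

open Matrix Module Polynomial TensorProduct

namespace CosetThompson

variable {F : Type*} [Field F] {n : Type*} [Fintype n] [DecidableEq n]

theorem sl_ext {g h : SpecialLinearGroup n F} (H : (g : Matrix n n F) = (h : Matrix n n F)) :
    g = h := Subtype.ext H

/-- the map `g ↦ A σ(g) A⁻¹` of the special linear group -/
noncomputable def slFun (σ : F ≃+* F) (A : GL n F) (g : SpecialLinearGroup n F) :
    SpecialLinearGroup n F :=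
  ⟨(A : Matrix n n F) * (g : Matrix n n F).map σ * ((A⁻¹ : GL n F) : Matrix n n F), by
    rw [det_mul, det_mul, det_map', g.det_coe, map_one, mul_one, ← det_mul, ← Units.val_mul,
      mul_inv_cancel, Units.val_one, det_one]⟩

theorem slFun_coe (σ : F ≃+* F) (A : GL n F) (g : SpecialLinearGroup n F) :
    ((slFun σ A g : SpecialLinearGroup n F) : Matrix n n F) =
      (A : Matrix n n F) * (g : Matrix n n F).map σ * ((A⁻¹ : GL n F) : Matrix n n F) := rfl

/-- the inverse of `slFun` -/
noncomputable def slInv (σ : F ≃+* F) (A : GL n F) (g : SpecialLinearGroup n F) :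
    SpecialLinearGroup n F :=
  ⟨(((A⁻¹ : GL n F) : Matrix n n F) * (g : Matrix n n F) * (A : Matrix n n F)).map σ.symm, by
    rw [det_map', det_mul, det_mul, g.det_coe, mul_one, ← det_mul, ← Units.val_mul,
      inv_mul_cancel, Units.val_one, det_one, map_one]⟩

theorem slInv_coe (σ : F ≃+* F) (A : GL n F) (g : SpecialLinearGroup n F) :
    ((slInv σ A g : SpecialLinearGroup n F) : Matrix n n F) =
      (((A⁻¹ : GL n F) : Matrix n n F) * (g : Matrix n n F) * (A : Matrix n n F)).map σ.symm := rfl

/-- the automorphism `g ↦ A σ(g) A⁻¹` of the special linear group -/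
noncomputable def slAut (σ : F ≃+* F) (A : GL n F) : MulAut (SpecialLinearGroup n F) where
  toFun := slFun σ A
  invFun := slInv σ A
  left_inv g := by
    apply sl_ext
    rw [slInv_coe, slFun_coe]
    have h : ((A⁻¹ : GL n F) : Matrix n n F) * ((A : Matrix n n F) * (g : Matrix n n F).map σ *
        ((A⁻¹ : GL n F) : Matrix n n F)) * (A : Matrix n n F) = (g : Matrix n n F).map σ := by
      simp only [Matrix.mul_assoc]
      rw [← Units.val_mul, inv_mul_cancel, Units.val_one, Matrix.mul_one, ← Matrix.mul_assoc,
        ← Units.val_mul, inv_mul_cancel, Units.val_one, Matrix.one_mul]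
    rw [h]
    ext i j
    simp only [Matrix.map_apply, RingEquiv.symm_apply_apply]
  right_inv g := by
    apply sl_ext
    rw [slFun_coe, slInv_coe, map_symm_map]
    simp only [Matrix.mul_assoc]
    rw [← Units.val_mul, mul_inv_cancel, Units.val_one, Matrix.mul_one, ← Matrix.mul_assoc,
      ← Units.val_mul, mul_inv_cancel, Units.val_one, Matrix.one_mul]
  map_mul' g h := by
    have key : (A : Matrix n n F) * ((g : Matrix n n F) * (h : Matrix n n F)).map σ *
        ((A⁻¹ : GL n F) : Matrix n n F) =
        ((A : Matrix n n F) * (g : Matrix n n F).map σ * ((A⁻¹ : GL n F) : Matrix n n F)) *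
        ((A : Matrix n n F) * (h : Matrix n n F).map σ * ((A⁻¹ : GL n F) : Matrix n n F)) := by
      rw [map_mul']
      simp only [Matrix.mul_assoc]
      rw [← Matrix.mul_assoc ((A⁻¹ : GL n F) : Matrix n n F) (A : Matrix n n F), ← Units.val_mul,
        inv_mul_cancel, Units.val_one, Matrix.one_mul]
    exact sl_ext key

theorem slAut_coe (σ : F ≃+* F) (A : GL n F) (g : SpecialLinearGroup n F) :
    ((slAut σ A g : SpecialLinearGroup n F) : Matrix n n F) =
      (A : Matrix n n F) * (g : Matrix n n F).map σ * ((A⁻¹ : GL n F) : Matrix n n F) := rfl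

/-- the induced automorphism of the projective special linear group -/
noncomputable def pslAut (σ : F ≃+* F) (A : GL n F) :
    MulAut (ProjectiveSpecialLinearGroup n F) :=
  QuotientGroup.congr _ _ (slAut σ A)
    (Subgroup.characteristic_iff_map_eq.mp inferInstance (slAut σ A))

theorem pslAut_mk (σ : F ≃+* F) (A : GL n F) (g : SpecialLinearGroup n F) :
    pslAut σ A (g : ProjectiveSpecialLinearGroup n F) =
      ((slAut σ A g : SpecialLinearGroup n F) : ProjectiveSpecialLinearGroup n F) := rfl

theorem pslAut_ext {α β : MulAut (ProjectiveSpecialLinearGroup n F)}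
    (h : ∀ g : SpecialLinearGroup n F, α (g : ProjectiveSpecialLinearGroup n F) =
      β (g : ProjectiveSpecialLinearGroup n F)) : α = β := by
  apply MulEquiv.ext
  intro x
  induction x using QuotientGroup.induction_on with
  | H g => exact h g

theorem mapGL_inv (σ : F ≃+* F) (A : GL n F) :
    ((A⁻¹ : GL n F) : Matrix n n F).map σ * (A : Matrix n n F).map σ = 1 := by
  rw [← map_mul', ← Units.val_mul, inv_mul_cancel, Units.val_one, map_one']

/-- composition -/
theorem pslAut_mul (σ τ : F ≃+* F) (A B C : GL n F)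
    (h : (C : Matrix n n F) = (A : Matrix n n F) * (B : Matrix n n F).map σ) :
    pslAut σ A * pslAut τ B = pslAut (τ.trans σ) C := by
  apply pslAut_ext
  intro g
  rw [MulAut.mul_apply, pslAut_mk, pslAut_mk, pslAut_mk]
  refine congrArg _ (sl_ext ?_)
  rw [slAut_coe, slAut_coe, slAut_coe, map_mul', map_mul', h]
  have h1 : (g : Matrix n n F).map (τ.trans σ) = ((g : Matrix n n F).map τ).map σ := by
    ext i j
    simp [Matrix.map_apply]
  have h2 : ((C⁻¹ : GL n F) : Matrix n n F) =
      ((B⁻¹ : GL n F) : Matrix n n F).map σ * ((A⁻¹ : GL n F) : Matrix n n F) := by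
    have h3 : ((B⁻¹ : GL n F) : Matrix n n F).map σ * ((A⁻¹ : GL n F) : Matrix n n F) *
        (C : Matrix n n F) = 1 := by
      rw [h, Matrix.mul_assoc, ← Matrix.mul_assoc ((A⁻¹ : GL n F) : Matrix n n F), ← Units.val_mul,
        inv_mul_cancel, Units.val_one, Matrix.one_mul, mapGL_inv]
    have h4 := congrArg (· * ((C⁻¹ : GL n F) : Matrix n n F)) h3
    simp only [Matrix.one_mul] at h4
    rw [Matrix.mul_assoc, ← Units.val_mul, mul_inv_cancel, Units.val_one, Matrix.mul_one] at h4
    exact h4.symm
  rw [h1, h2]
  simp only [Matrix.mul_assoc]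

/-- inner automorphisms -/
theorem pslAut_conj (g : SpecialLinearGroup n F) :
    MulAut.conj (g : ProjectiveSpecialLinearGroup n F) =
      pslAut (RingEquiv.refl F) (g : GL n F) := by
  apply pslAut_ext
  intro x
  rw [pslAut_mk, MulAut.conj_apply]
  have h : slAut (RingEquiv.refl F) (g : GL n F) x = g * x * g⁻¹ := by
    apply sl_ext
    rw [slAut_coe]
    have h1 : (x : Matrix n n F).map (RingEquiv.refl F) = (x : Matrix n n F) := by
      ext i j
      simp
    rw [h1]
    have h2 : (((g : GL n F)⁻¹ : GL n F) : Matrix n n F) = ((g⁻¹ : SpecialLinearGroup n F) : Matrix n n F) := by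
      rw [← map_inv]
      rfl
    rw [h2]
    rfl
  rw [h]
  rfl

end CosetThompson
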