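import Mathlib

/-! # Products of twisted conjugacy classes: the gluing step

`F` is a finite field, `σ` an automorphism.  `Cls σ a` is the set of matrices `u⁻¹ a σ(u)` with
`det u = 1`. -/

open Matrix

namespace CosetThompson

variable {F : Type*} [Field F]

/-- `A` is `σ`-conjugate to `a` under the special linear group: `u A = a σ(u)`, `det u = 1`. -/
def Cls {ι : Type*} [Fintype ι] [DecidableEq ι] (σ : F ≃+* F) (a A : Matrix ι ι F) : Prop :=
  ∃ u : Matrix ι ι F, u.det = 1 ∧ u * A = a * u.map σ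

/-- every matrix `z` of the right determinant is a product `A σ(B)` with `A`, `B` in the class
of `a`. -/
def Good {ι : Type*} [Fintype ι] [DecidableEq ι] (σ : F ≃+* F) (a : Matrix ι ι F) : Prop :=
  ∀ z : Matrix ι ι F, z.det = a.det * σ a.det → ∃ A B : Matrix ι ι F,
    Cls σ a A ∧ Cls σ a B ∧ z = A * B.map σ

section maps

variable {l m n : Type*} [Fintype m]

theorem map_mul' (σ : F ≃+* F) (A : Matrix l m F) (B : Matrix m n F) :
    (A * B).map σ = A.map σ * B.map σ := by
  ext i j
  simp only [Matrix.map_apply, Matrix.mul_apply, map_sum, map_mul]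

theorem map_add' (σ : F ≃+* F) (A B : Matrix l n F) :
    (A + B).map σ = A.map σ + B.map σ := by
  ext i j
  simp [Matrix.map_apply]

theorem map_sub' (σ : F ≃+* F) (A B : Matrix l n F) :
    (A - B).map σ = A.map σ - B.map σ := by
  ext i j
  simp [Matrix.map_apply]

theorem map_zero' (σ : F ≃+* F) : (0 : Matrix l n F).map σ = 0 := by
  ext i j
  simp [Matrix.map_apply]

omit [Fintype m] in
theorem map_one' [DecidableEq m] (σ : F ≃+* F) : (1 : Matrix m m F).map σ = 1 := by
  ext i j
  simp [Matrix.map_apply, Matrix.one_apply]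

theorem det_map' [DecidableEq m] (σ : F ≃+* F) (A : Matrix m m F) :
    (A.map σ).det = σ A.det := by
  have := (σ : F →+* F).map_det A
  simpa using this.symm

theorem map_symm_map (σ : F ≃+* F) (A : Matrix l n F) : (A.map σ.symm).map σ = A := by
  ext i j
  simp [Matrix.map_apply]

end maps

/-- an injective additive endomorphism of a finite group of matrices is surjective -/
theorem solve {l n : Type*} [Finite l] [Finite n] [Finite F] (f : Matrix l n F →+ Matrix l n F)
    (hf : ∀ y, f y = 0 → y = 0) (c : Matrix l n F) : ∃ y, f y = c := by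
  have : Finite (Matrix l n F) := by
    unfold Matrix
    infer_instance
  have hinj : Function.Injective f := (injective_iff_map_eq_zero f).mpr hf
  exact Finite.surjective_of_injective hinj c

section step

variable {κ ι : Type*} [Fintype κ] [DecidableEq κ] [Fintype ι] [DecidableEq ι]

/-- The gluing step, Schur complement part. -/
theorem glue_aux [Finite F] (σ : F ≃+* F) (a₁ : Matrix κ κ F) (a' : Matrix ι ι F)
    (h1 : a₁.det ≠ 0)
    (d1 : ∀ y : Matrix ι κ F, a' * y.map σ = y * a₁ → y = 0)
    (d2 : ∀ y : Matrix κ ι F, a₁ * y.map σ = y * a' → y = 0)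
    (hG : Good σ a') (r : Matrix κ ι F) (c : Matrix ι κ F) (M' : Matrix ι ι F)
    (hdet : (fromBlocks (a₁ * a₁.map σ) r c M').det =
      (fromBlocks a₁ 0 0 a').det * σ (fromBlocks a₁ 0 0 a').det) :
    ∃ A B, Cls σ (fromBlocks a₁ 0 0 a') A ∧ Cls σ (fromBlocks a₁ 0 0 a') B ∧
      fromBlocks (a₁ * a₁.map σ) r c M' = A * B.map σ := by
  set h₁ := a₁ * a₁.map σ with hh
  have hh1 : h₁.det ≠ 0 := by
    rw [hh, det_mul, det_map']
    exact mul_ne_zero h1 (by simpa using h1)
  have hu : IsUnit h₁.det := isUnit_iff_ne_zero.mpr hh1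
  let : Invertible h₁ := Matrix.invertibleOfIsUnitDet h₁ hu
  have hinv : ⅟h₁ = h₁⁻¹ := Matrix.invOf_eq_nonsing_inv h₁
  -- the Schur complement
  have hS : (M' - c * h₁⁻¹ * r).det = a'.det * σ a'.det := by
    rw [det_fromBlocks₁₁, hinv, det_fromBlocks_zero₂₁, hh, det_mul, det_map', map_mul] at hdet
    have hs : σ a₁.det ≠ 0 := by simpa using h1
    have : a₁.det * σ a₁.det ≠ 0 := mul_ne_zero h1 hs
    apply mul_left_cancel₀ this
    rw [← hh] at hdet
    linear_combination hdet
  obtain ⟨A', B', ⟨u', hu'1, hu'2⟩, ⟨v', hv'1, hv'2⟩, hAB⟩ := hG _ hS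
  have hv'u : IsUnit v'.det := by rw [hv'1]; exact isUnit_one
  set l := c * h₁⁻¹ with hl
  set ρ := (h₁⁻¹ * r).map σ.symm with hρ
  have hρ' : ρ.map σ = h₁⁻¹ * r := map_symm_map σ _
  refine ⟨fromBlocks a₁ 0 (l * a₁) A', fromBlocks a₁ (a₁ * ρ) 0 B', ?_, ?_, ?_⟩
  · -- the lower triangular factor
    obtain ⟨y, hy⟩ := solve (F := F)
      { toFun := fun y : Matrix ι κ F => a' * y.map σ - y * a₁
        map_zero' := by simp [map_zero']
        map_add' := fun x y => by
          rw [map_add', Matrix.mul_add, Matrix.add_mul]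
          abel }
      (fun y hy => d1 y (sub_eq_zero.mp hy)) (u' * (l * a₁))
    simp only [AddMonoidHom.coe_mk, ZeroHom.coe_mk] at hy
    refine ⟨fromBlocks 1 0 y u', ?_, ?_⟩
    · rw [det_fromBlocks_zero₁₂, hu'1, det_one, one_mul]
    · rw [fromBlocks_map, fromBlocks_multiply, fromBlocks_multiply, map_one', map_zero']
      simp only [Matrix.one_mul, Matrix.zero_mul, Matrix.mul_one, Matrix.mul_zero, add_zero,
        zero_add, hu'2]
      have e : y * a₁ + u' * (l * a₁) = a' * y.map σ := by
        rw [← hy]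
        abel
      rw [e]
  · obtain ⟨y, hy⟩ := solve (F := F)
      { toFun := fun y : Matrix κ ι F => a₁ * y.map σ - y * a'
        map_zero' := by simp [map_zero']
        map_add' := fun x y => by
          rw [map_add', Matrix.mul_add, Matrix.add_mul]
          abel }
      (fun y hy => d2 y (sub_eq_zero.mp hy)) (a₁ * ρ * (v'.map σ)⁻¹)
    simp only [AddMonoidHom.coe_mk, ZeroHom.coe_mk] at hy
    have hvs : IsUnit (v'.map σ).det := by rw [det_map', hv'1, map_one]; exact isUnit_one
    have hy2 : a₁ * (y.map σ * v'.map σ) - y * (v' * B') = a₁ * ρ := by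
      rw [hv'2]
      have := congrArg (· * v'.map σ) hy
      simp only [Matrix.sub_mul] at this
      rw [Matrix.nonsing_inv_mul_cancel_right _ _ hvs] at this
      rw [← this]
      simp only [Matrix.mul_assoc]
    refine ⟨fromBlocks 1 (y * v') 0 v', ?_, ?_⟩
    · rw [det_fromBlocks_zero₂₁, hv'1, det_one, one_mul]
    · rw [fromBlocks_map, fromBlocks_multiply, fromBlocks_multiply, map_one', map_zero', map_mul']
      simp only [Matrix.one_mul, Matrix.zero_mul, Matrix.mul_one, Matrix.mul_zero, add_zero,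
        zero_add, hv'2]
      have e : a₁ * ρ + y * v' * B' = a₁ * (y.map σ * v'.map σ) := by
        rw [← hy2, Matrix.mul_assoc y v' B']
        abel
      rw [e]
  · rw [fromBlocks_map, fromBlocks_multiply, map_zero', map_mul', hρ']
    simp only [Matrix.zero_mul, Matrix.mul_zero, add_zero]
    have e1 : a₁ * a₁.map σ = h₁ := hh.symm
    have e2 : h₁ * (h₁⁻¹ * r) = r := Matrix.mul_nonsing_inv_cancel_left _ _ hu
    have e3 : l * h₁ = c := by rw [hl]; exact Matrix.nonsing_inv_mul_cancel_right _ _ hu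
    have f1 : a₁ * (a₁.map σ * (h₁⁻¹ * r)) = r := by rw [← Matrix.mul_assoc, e1, e2]
    have f2 : l * a₁ * a₁.map σ = c := by rw [Matrix.mul_assoc, e1, e3]
    have f3 : l * a₁ * (a₁.map σ * (h₁⁻¹ * r)) + A' * B'.map σ = M' := by
      rw [Matrix.mul_assoc l, f1, ← hAB]
      abel
    rw [f1, f2, f3, e1]

/-- conjugation of the product decomposition -/
theorem cls_conj (σ : F ≃+* F) (a g A : Matrix ι ι F) (hg : g.det = 1) (hA : Cls σ a A) :
    Cls σ a (g * A * (g.map σ)⁻¹) := by
  obtain ⟨u, hu1, hu2⟩ := hA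
  have hgu : IsUnit g.det := by rw [hg]; exact isUnit_one
  refine ⟨u * g⁻¹, ?_, ?_⟩
  · rw [det_mul, hu1, det_nonsing_inv, hg]
    simp
  · have e1 : (g⁻¹).map σ = (g.map σ)⁻¹ := by
      symm
      apply Matrix.inv_eq_right_inv
      rw [← map_mul', Matrix.mul_nonsing_inv _ hgu, map_one']
    rw [map_mul', e1, ← Matrix.mul_assoc, ← Matrix.mul_assoc, ← Matrix.mul_assoc, ← hu2]
    rw [Matrix.nonsing_inv_mul_cancel_right _ _ hgu]

end step

end CosetThompson
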