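import Pool.Agent.Helper47.CT.Blk
import Pool.Agent.Helper47.CT.Semi

/-! # The gluing step for `Good` -/

open Matrix Module

namespace CosetThompson

variable {F : Type*} [Field F] [Finite F]
variable {κ ι : Type*} [Fintype κ] [DecidableEq κ] [Fintype ι] [DecidableEq ι]

theorem good_step (σ : F ≃+* F) (hσ : ∃ c, σ (σ c) ≠ c) (hcard : Fintype.card κ ≤ Fintype.card ι)
    [Nonempty ι] (a₁ : Matrix κ κ F) (a' : Matrix ι ι F) (h1 : a₁.det ≠ 0) (h2 : a'.det ≠ 0)
    (d1 : ∀ y : Matrix ι κ F, a' * y.map σ = y * a₁ → y = 0)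
    (d2 : ∀ y : Matrix κ ι F, a₁ * y.map σ = y * a' → y = 0)
    (hG : Good σ a') : Good σ (fromBlocks a₁ 0 0 a') := by
  intro z hz
  have hz0 : z.det ≠ 0 := by
    rw [hz, det_fromBlocks_zero₂₁]
    have : a₁.det * a'.det ≠ 0 := mul_ne_zero h1 h2
    exact mul_ne_zero this (by simpa using this)
  obtain ⟨g, M, hg, hgM, hM⟩ := exists_block (σ.trans σ) (by simpa using hσ) hcard z hz0
    (a₁ * a₁.map σ)
  have hgm : ∀ X : Matrix (κ ⊕ ι) (κ ⊕ ι) F, X.map (σ.trans σ) = (X.map σ).map σ := by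
    intro X
    ext i j
    simp [Matrix.map_apply]
  have hgu : IsUnit g.det := by rw [hg]; exact isUnit_one
  have hgsu : IsUnit (g.map σ).det := by rw [det_map', hg, map_one]; exact isUnit_one
  have hgssu : IsUnit ((g.map σ).map σ).det := by
    rw [det_map', det_map', hg, map_one, map_one]; exact isUnit_one
  rw [hgm] at hgM
  have hMb : M = fromBlocks (a₁ * a₁.map σ) M.toBlocks₁₂ M.toBlocks₂₁ M.toBlocks₂₂ := by
    rw [← hM]
    exact (Matrix.fromBlocks_toBlocks M).symm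
  have hdM : M.det = z.det := by
    have := congrArg Matrix.det hgM
    rw [det_mul, det_mul, det_map', det_map', hg, map_one, map_one, one_mul, mul_one] at this
    exact this
  obtain ⟨A, B, hA, hB, hAB⟩ := glue_aux σ a₁ a' h1 d1 d2 hG M.toBlocks₁₂ M.toBlocks₂₁ M.toBlocks₂₂
    (by rw [← hMb, hdM, hz])
  rw [← hMb] at hAB
  refine ⟨g * A * (g.map σ)⁻¹, g * B * (g.map σ)⁻¹, cls_conj σ _ g A hg hA, cls_conj σ _ g B hg hB, ?_⟩
  have e1 : ((g.map σ)⁻¹).map σ = ((g.map σ).map σ)⁻¹ := by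
    symm
    apply Matrix.inv_eq_right_inv
    rw [← map_mul', Matrix.mul_nonsing_inv _ hgsu, map_one']
  rw [map_mul', map_mul', e1]
  have e2 : z = g * M * ((g.map σ).map σ)⁻¹ := by
    rw [hgM, Matrix.mul_nonsing_inv_cancel_right _ _ hgssu]
  rw [e2, hAB]
  simp only [Matrix.mul_assoc]
  rw [Matrix.nonsing_inv_mul_cancel_left _ _ hgsu]

end CosetThompson
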