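import Pool.Agent.Helper47.CT.Semi

/-! # Subspaces in general position with respect to a semilinear map -/

open Matrix Module

namespace CosetThompson

variable {F : Type*} [Field F] [Finite F] {V : Type*} [AddCommGroup V] [Module F V]
  [FiniteDimensional F V]

/-- modulo a subspace of codimension at least two, some vector is independent of its image -/
theorem exists_indep_mod (τ : F ≃+* F) (hτ : ∃ c, τ c ≠ c) (T : V → V)
    (hadd : ∀ x y, T (x + y) = T x + T y) (hsmul : ∀ (c : F) x, T (c • x) = τ c • T x)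
    (hinj : ∀ x, T x = 0 → x = 0) (X : Submodule F V) (hX : finrank F X + 2 ≤ finrank F V) :
    ∃ v, ∀ a b : F, a • v + b • T v ∈ X → a = 0 ∧ b = 0 := by
  by_contra hcon
  push Not at hcon
  have hsub : ∀ x y, T (x - y) = T x - T y := by
    intro x y
    have h1 := hsmul (-1) y
    rw [map_neg, map_one, neg_one_smul, neg_one_smul] at h1
    rw [sub_eq_add_neg, hadd, h1, ← sub_eq_add_neg]
  have key1 : ∀ v, v ∉ X → ∃ c : F, T v - c • v ∈ X := by
    intro v hv
    obtain ⟨a, b, hab, hne⟩ := hcon v
    have hb : b ≠ 0 := by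
      intro hb
      subst hb
      by_cases ha : a = 0
      · exact hne ha rfl
      · apply hv
        rw [zero_smul, add_zero] at hab
        have := X.smul_mem a⁻¹ hab
        rwa [smul_smul, inv_mul_cancel₀ ha, one_smul] at this
    refine ⟨-(b⁻¹ * a), ?_⟩
    have := X.smul_mem b⁻¹ hab
    rw [smul_add, smul_smul, smul_smul, inv_mul_cancel₀ hb, one_smul] at this
    rw [neg_smul, sub_neg_eq_add, add_comm]
    exact this
  -- two vectors independent modulo X
  obtain ⟨v₁, hv₁⟩ : ∃ v₁, v₁ ∉ X := by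
    by_contra hc
    push Not at hc
    have : X = ⊤ := by
      rw [eq_top_iff]
      intro x _
      exact hc x
    rw [this, finrank_top] at hX
    omega
  obtain ⟨v₂, hv₂⟩ : ∃ v₂, v₂ ∉ X ⊔ Submodule.span F {v₁} := by
    by_contra hc
    push Not at hc
    have h1 : X ⊔ Submodule.span F {v₁} = ⊤ := by
      rw [eq_top_iff]
      intro x _
      exact hc x
    have h2 := Submodule.finrank_add_le_finrank_add_finrank X (Submodule.span F {v₁})
    have h3 : finrank F (Submodule.span F {v₁}) ≤ 1 := by
      refine (finrank_span_le_card ({v₁} : Set V)).trans ?_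
      simp
    rw [h1, finrank_top] at h2
    omega
  have hind : ∀ a b : F, a • v₁ + b • v₂ ∈ X → a = 0 ∧ b = 0 := by
    intro a b hab
    have hb : b = 0 := by
      by_contra hb
      apply hv₂
      have h1 : b⁻¹ • (a • v₁ + b • v₂) ∈ X := X.smul_mem _ hab
      have h2 : v₂ = b⁻¹ • (a • v₁ + b • v₂) + (-(b⁻¹ * a)) • v₁ := by
        rw [smul_add, smul_smul, smul_smul, inv_mul_cancel₀ hb, one_smul, neg_smul]
        abel
      rw [h2]
      exact Submodule.add_mem_sup h1
        (Submodule.smul_mem _ _ (Submodule.mem_span_singleton_self v₁))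
    subst hb
    rw [zero_smul, add_zero] at hab
    refine ⟨?_, rfl⟩
    by_contra ha
    apply hv₁
    have := X.smul_mem a⁻¹ hab
    rwa [smul_smul, inv_mul_cancel₀ ha, one_smul] at this
  have hv₂' : v₂ ∉ X := fun h => hv₂ (Submodule.mem_sup_left h)
  obtain ⟨l₁, hl₁⟩ := key1 v₁ hv₁
  obtain ⟨l₂, hl₂⟩ := key1 v₂ hv₂'
  -- T preserves X
  have hTX : ∀ x ∈ X, T x ∈ X := by
    intro x hx
    have h1 : v₁ + x ∉ X := fun h => hv₁ (by simpa using X.sub_mem h hx)
    have h2 : v₂ + x ∉ X := fun h => hv₂' (by simpa using X.sub_mem h hx)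
    obtain ⟨m₁, hm₁⟩ := key1 _ h1
    obtain ⟨m₂, hm₂⟩ := key1 _ h2
    rw [hadd] at hm₁ hm₂
    have e1 : T x - (m₁ - l₁) • v₁ ∈ X := by
      have := X.add_mem (X.sub_mem hm₁ hl₁) (X.smul_mem m₁ hx)
      convert this using 1
      rw [smul_add, sub_smul]
      abel
    have e2 : T x - (m₂ - l₂) • v₂ ∈ X := by
      have := X.add_mem (X.sub_mem hm₂ hl₂) (X.smul_mem m₂ hx)
      convert this using 1
      rw [smul_add, sub_smul]
      abel
    have e3 : (m₁ - l₁) • v₁ + (-(m₂ - l₂)) • v₂ ∈ X := by
      have := X.sub_mem e2 e1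
      convert this using 1
      rw [neg_smul]
      abel
    have e4 := (hind _ _ e3).1
    rw [e4, zero_smul, sub_zero] at e1
    exact e1
  -- T is onto X
  have hfin : Finite V := Module.finite_of_finite F
  have hl1ne : l₁ ≠ 0 := by
    intro h0
    rw [h0, zero_smul, sub_zero] at hl₁
    have hinjX : Function.Injective (fun x : X => (⟨T x, hTX x x.2⟩ : X)) := by
      intro x y hxy
      have h1 : T x = T y := congrArg Subtype.val hxy
      have h2 : T ((x : V) - y) = 0 := by rw [hsub, h1, sub_self]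
      exact Subtype.ext (sub_eq_zero.mp (hinj _ h2))
    obtain ⟨x, hx⟩ := Finite.surjective_of_injective hinjX ⟨T v₁, hl₁⟩
    have h1 : T x = T v₁ := congrArg Subtype.val hx
    have h2 : T ((x : V) - v₁) = 0 := by rw [hsub, h1, sub_self]
    have h3 := sub_eq_zero.mp (hinj _ h2)
    exact hv₁ (h3 ▸ x.2)
  have hc : ∀ c : F, τ c * l₁ = l₂ * c := by
    intro c
    have h1 : c • v₁ + v₂ ∉ X := by
      intro h
      have := (hind c 1 (by rwa [one_smul])).2
      exact one_ne_zero this
    obtain ⟨m, hm⟩ := key1 _ h1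
    rw [hadd, hsmul] at hm
    have e1 : (τ c * l₁ - m * c) • v₁ + (l₂ - m) • v₂ ∈ X := by
      have := X.sub_mem (X.sub_mem hm (X.smul_mem (τ c) hl₁)) hl₂
      have h2 := X.neg_mem this
      have := X.neg_mem h2
      convert this using 1
      rw [smul_add, smul_sub, sub_smul, sub_smul, smul_smul, smul_smul]
      abel
    obtain ⟨h2, h3⟩ := hind _ _ e1
    have h4 : l₂ = m := sub_eq_zero.mp h3
    rw [h4]
    exact sub_eq_zero.mp h2
  obtain ⟨c, hcne⟩ := hτ
  apply hcne
  have h1 := hc 1
  rw [map_one, one_mul, mul_one] at h1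
  have h2 := hc c
  rw [← h1, mul_comm] at h2
  exact mul_left_cancel₀ hl1ne h2

/-- `m` vectors which together with their images are independent -/
theorem exists_indep (τ : F ≃+* F) (hτ : ∃ c, τ c ≠ c) (T : V → V)
    (hadd : ∀ x y, T (x + y) = T x + T y) (hsmul : ∀ (c : F) x, T (c • x) = τ c • T x)
    (hinj : ∀ x, T x = 0 → x = 0) (m : ℕ) (hm : 2 * m ≤ finrank F V) :
    ∃ w : Fin m → V, LinearIndependent F (Sum.elim w (T ∘ w)) := by
  induction m with
  | zero =>
    refine ⟨fun i => i.elim0, ?_⟩
    exact linearIndependent_empty_type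
  | succ m ih =>
    obtain ⟨w, hw⟩ := ih (by omega)
    set X : Submodule F V := Submodule.span F (Set.range (Sum.elim w (T ∘ w))) with hX
    have hXr : finrank F X + 2 ≤ finrank F V := by
      have := finrank_span_eq_card hw
      rw [Fintype.card_sum, Fintype.card_fin] at this
      rw [hX, this]
      omega
    obtain ⟨v, hv⟩ := exists_indep_mod τ hτ T hadd hsmul hinj X hXr
    refine ⟨Fin.cons v w, ?_⟩
    rw [Fintype.linearIndependent_iff]
    intro g hg
    rw [Fintype.sum_sum_type, Fin.sum_univ_succ, Fin.sum_univ_succ] at hg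
    simp only [Sum.elim_inl, Sum.elim_inr, Function.comp_apply, Fin.cons_zero, Fin.cons_succ] at hg
    have hmem : g (Sum.inl 0) • v + g (Sum.inr 0) • T v ∈ X := by
      have h1 : g (Sum.inl 0) • v + g (Sum.inr 0) • T v =
          -(∑ i : Fin m, g (Sum.inl i.succ) • w i + ∑ i : Fin m, g (Sum.inr i.succ) • T (w i)) := by
        rw [eq_neg_iff_add_eq_zero, ← hg]
        abel
      rw [h1]
      apply X.neg_mem
      apply X.add_mem
      · exact X.sum_mem fun i _ => X.smul_mem _ (Submodule.subset_span ⟨Sum.inl i, rfl⟩)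
      · exact X.sum_mem fun i _ => X.smul_mem _ (Submodule.subset_span ⟨Sum.inr i, rfl⟩)
    obtain ⟨h0, h1⟩ := hv _ _ hmem
    rw [h0, h1, zero_smul, zero_smul, zero_add, zero_add] at hg
    have hw' := Fintype.linearIndependent_iff.mp hw
      (Sum.elim (fun i => g (Sum.inl i.succ)) (fun i => g (Sum.inr i.succ))) (by
        rw [Fintype.sum_sum_type]
        simpa using hg)
    intro i
    rcases i with i | i
    · refine Fin.cases h0 (fun j => ?_) i
      exact hw' (Sum.inl j)
    · refine Fin.cases h1 (fun j => ?_) i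
      exact hw' (Sum.inr j)

end CosetThompson
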